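import Mathlib
import Pool.Agent.H305R3.Rot.Near

/-!
# Skew operators on a real normed space

`Spt x f`: `f` is a support functional at `x`.  `Sk A`: `f (A x) = 0` for all support functionals.
-/

set_option autoImplicit false

namespace Pool.Q193.BF

open Filter Topology

variable {E : Type*} [NormedAddCommGroup E] [NormedSpace ℝ E]

/-- `f` is a support functional at `x` -/
def Spt (x : E) (f : E →L[ℝ] ℝ) : Prop := ‖f‖ ≤ 1 ∧ f x = ‖x‖

/-- skew operators -/
def Sk (A : E →L[ℝ] E) : Prop := ∀ (x : E) (f : E →L[ℝ] ℝ), Spt x f → f (A x) = 0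

theorem exists_spt (x : E) : ∃ f : E →L[ℝ] ℝ, Spt x f := by
  obtain ⟨g, h1, h2⟩ := exists_dual_vector'' ℝ x
  exact ⟨g, h1, h2⟩

theorem Spt.le {x : E} {f : E →L[ℝ] ℝ} (h : Spt x f) (y : E) : f y ≤ ‖y‖ := by
  have h1 : |f y| ≤ ‖f‖ * ‖y‖ := f.le_opNorm y
  have h2 : ‖f‖ * ‖y‖ ≤ 1 * ‖y‖ := by
    have := h.1
    have := norm_nonneg y
    gcongr
  have := le_abs_self (f y)
  linarith

theorem Spt.comp {x : E} {f : E →L[ℝ] ℝ} (h : Spt x f) (P : E →L[ℝ] E)
    (hP : ∀ y, ‖P y‖ ≤ ‖y‖) (hx : P x = x) : Spt x (f.comp P) := by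
  refine ⟨?_, ?_⟩
  · refine ContinuousLinearMap.opNorm_le_bound _ zero_le_one (fun y => ?_)
    rw [ContinuousLinearMap.comp_apply]
    refine (f.le_opNorm _).trans ?_
    have h1 := h.1
    have h2 := hP y
    have := norm_nonneg (P y)
    gcongr
  · rw [ContinuousLinearMap.comp_apply, hx]
    exact h.2

/-- If `‖x - t w‖ ≤ ‖x‖` for one `t > 0` then `0 ≤ f w`. -/
theorem Spt.nonneg {x : E} {f : E →L[ℝ] ℝ} (h : Spt x f) {w : E} {t : ℝ} (ht : 0 < t)
    (hw : ‖x - t • w‖ ≤ ‖x‖) : 0 ≤ f w := by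
  have h1 := h.le (x - t • w)
  rw [map_sub, map_smul, h.2, smul_eq_mul] at h1
  have h2 : 0 ≤ t * f w := by linarith
  exact nonneg_of_mul_nonneg_right h2 ht

theorem Sk.add {A B : E →L[ℝ] E} (hA : Sk A) (hB : Sk B) : Sk (A + B) := by
  intro x f h
  rw [add_apply, map_add, hA x f h, hB x f h, add_zero]

theorem Sk.smul {A : E →L[ℝ] E} (c : ℝ) (hA : Sk A) : Sk (c • A) := by
  intro x f h
  rw [smul_apply, map_smul, hA x f h, smul_zero]

theorem Sk.neg {A : E →L[ℝ] E} (hA : Sk A) : Sk (-A) := by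
  intro x f h
  rw [neg_apply, map_neg, hA x f h, neg_zero]

theorem Sk.sub {A B : E →L[ℝ] E} (hA : Sk A) (hB : Sk B) : Sk (A - B) := by
  intro x f h
  rw [sub_apply, map_sub, hA x f h, hB x f h, sub_zero]

theorem Sk.congr {A B : E →L[ℝ] E} (hA : Sk A) (h : ∀ x, B x = A x) : Sk B := by
  intro x f hf
  rw [h]
  exact hA x f hf

/-- conjugation by an isometry -/
noncomputable def cj (T : E ≃ₗᵢ[ℝ] E) (A : E →L[ℝ] E) : E →L[ℝ] E :=
  ((T : E →L[ℝ] E).comp A).comp (T.symm : E →L[ℝ] E)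

theorem cj_apply (T : E ≃ₗᵢ[ℝ] E) (A : E →L[ℝ] E) (x : E) : cj T A x = T (A (T.symm x)) := rfl

theorem Sk.cj {A : E →L[ℝ] E} (hA : Sk A) (T : E ≃ₗᵢ[ℝ] E) : Sk (cj T A) := by
  intro x f h
  rw [cj_apply]
  have h1 : Spt (T.symm x) (f.comp (T : E →L[ℝ] E)) := by
    refine ⟨?_, ?_⟩
    · refine ContinuousLinearMap.opNorm_le_bound _ zero_le_one (fun y => ?_)
      have h2 := f.le_opNorm (T y)
      rw [T.norm_map] at h2
      refine h2.trans ?_
      have := h.1
      have := norm_nonneg y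
      gcongr
    · show f (T (T.symm x)) = _
      rw [T.apply_symm_apply, T.symm.norm_map]
      exact h.2
  exact hA _ _ h1

/-- the generator of a norm continuous group of isometries is skew -/
theorem Sk.of_exp [CompleteSpace E] {A : E →L[ℝ] E}
    (hA : ∀ (t : ℝ) (x : E), ‖NormedSpace.exp (t • A) x‖ = ‖x‖) : Sk A := by
  intro x f h
  have h1 : HasDerivAt (fun t : ℝ => NormedSpace.exp (t • A)) A 0 := by
    have := hasDerivAt_exp_smul_const (𝕂 := ℝ) A (0 : ℝ)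
    simpa using this
  have h2 : HasDerivAt (fun t : ℝ => f (NormedSpace.exp (t • A) x)) (f (A x)) 0 := by
    have h3 := h1.clm_apply (hasDerivAt_const (0 : ℝ) x)
    have h4 := f.hasFDerivAt.comp_hasDerivAt (0 : ℝ) h3
    simpa [Function.comp_def] using h4
  have h5 : IsLocalMax (fun t : ℝ => f (NormedSpace.exp (t • A) x)) 0 := by
    refine Filter.Eventually.of_forall (fun t => ?_)
    have h6 := h.le (NormedSpace.exp (t • A) x)
    rw [hA] at h6
    show f (NormedSpace.exp (t • A) x) ≤ f (NormedSpace.exp ((0 : ℝ) • A) x)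
    rw [zero_smul, NormedSpace.exp_zero, ContinuousLinearMap.one_apply, h.2]
    exact h6
  exact h5.hasDerivAt_eq_zero h2

/-- Transitivity: if a skew operator `A` kills `x ≠ 0`, its range is contained in the closure of
the vectors `B x`, `B` skew. -/
theorem range_subset [CompleteSpace E] [TopologicalSpace.SeparableSpace E]
    (htr : ∀ x y : E, ‖x‖ = 1 → ‖y‖ = 1 → ∃ T : E ≃ₗᵢ[ℝ] E, T x = y)
    {A : E →L[ℝ] E} (hA : Sk A) {x : E} (hx : ‖x‖ = 1) (hAx : A x = 0) (w : E) {δ : ℝ}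
    (hδ : 0 < δ) : ∃ B : E →L[ℝ] E, Sk B ∧ ‖B x - A w‖ ≤ δ := by
  set κ : ℝ := δ / (2 * (‖A‖ + 1)) with hκ
  have hA0 : 0 ≤ ‖A‖ := norm_nonneg A
  have hκ0 : 0 < κ := by positivity
  obtain ⟨t, ht, hnear⟩ := Pool.H305R3.Rot.near_open htr (![w, A w]) x hx hκ0
  -- a small step
  set M : ℝ := 6 * ‖A‖ + 2 * ‖w‖ + 2 / t * ‖w‖ + 1 + 2 * (6 * ‖A‖) / δ with hM
  have hM1 : 1 ≤ M := by
    have h1 : 0 ≤ 6 * ‖A‖ := by positivity
    have h2 : 0 ≤ 2 * ‖w‖ := by positivity
    have h3 : 0 ≤ 2 / t * ‖w‖ := by positivity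
    have h4 : 0 ≤ 2 * (6 * ‖A‖) / δ := by positivity
    linarith
  have hM0 : 0 < M := by linarith
  set ε : ℝ := 1 / M with hε
  have hε0 : 0 < ε := by positivity
  have hε1 : ε ≤ 1 := by rw [hε, div_le_one hM0]; exact hM1
  have hεw : ε * (2 * ‖w‖) ≤ 1 := by
    rw [hε, one_div, inv_mul_le_iff₀ hM0, mul_one]
    have h1 : 0 ≤ 6 * ‖A‖ := by positivity
    have h3 : 0 ≤ 2 / t * ‖w‖ := by positivity
    have h4 : 0 ≤ 2 * (6 * ‖A‖) / δ := by positivity
    linarith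
  have hεt : ε * (2 * ‖w‖) ≤ t := by
    have h5 : 2 / t * ‖w‖ ≤ M := by
      have h1 : 0 ≤ 6 * ‖A‖ := by positivity
      have h2 : 0 ≤ 2 * ‖w‖ := by positivity
      have h4 : 0 ≤ 2 * (6 * ‖A‖) / δ := by positivity
      linarith
    have h6 : 2 * ‖w‖ ≤ M * t := by
      have := mul_le_mul_of_nonneg_right h5 ht.le
      have h7 : 2 / t * ‖w‖ * t = 2 * ‖w‖ := by field_simp
      linarith
    rw [hε, one_div, inv_mul_le_iff₀ hM0]
    exact h6
  have hεA : ε * (6 * ‖A‖) ≤ δ / 2 := by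
    have h5 : 2 * (6 * ‖A‖) / δ ≤ M := by
      have h1 : 0 ≤ 6 * ‖A‖ := by positivity
      have h2 : 0 ≤ 2 * ‖w‖ := by positivity
      have h3 : 0 ≤ 2 / t * ‖w‖ := by positivity
      linarith
    have h6 : 2 * (6 * ‖A‖) ≤ M * δ := by
      rw [div_le_iff₀ hδ] at h5
      exact h5
    rw [hε, one_div, inv_mul_le_iff₀ hM0]
    linarith
  -- the vector `x + ε w`
  set lam : ℝ := ‖x + ε • w‖ with hlam
  have hnw : ‖ε • w‖ = ε * ‖w‖ := by rw [norm_smul, Real.norm_of_nonneg hε0.le]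
  have hl1 : lam ≤ 1 + ε * ‖w‖ := by
    have := norm_add_le x (ε • w)
    rw [hx, hnw] at this
    exact this
  have hl2 : 1 - ε * ‖w‖ ≤ lam := by
    have := norm_sub_norm_le x (-(ε • w))
    rw [sub_neg_eq_add, norm_neg, hx, hnw] at this
    exact this
  have hl3 : 1 / 2 ≤ lam := by linarith
  have hl4 : lam ≤ 3 / 2 := by linarith
  have hl0 : 0 < lam := by linarith
  set y : E := lam⁻¹ • (x + ε • w) with hy
  have hyn : ‖y‖ = 1 := by
    rw [hy, norm_smul, norm_inv, Real.norm_of_nonneg hl0.le, ← hlam, inv_mul_cancel₀ hl0.ne']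
  have hyx : ‖y - x‖ ≤ t := by
    have h1 : y - x = (y - lam • y) + (lam • y - x) := by abel
    have h2 : lam • y = x + ε • w := by
      rw [hy, smul_smul, mul_inv_cancel₀ hl0.ne', one_smul]
    have h3 : ‖y - lam • y‖ ≤ ε * ‖w‖ := by
      have h4 : y - lam • y = (1 - lam) • y := by rw [sub_smul, one_smul]
      rw [h4, norm_smul, hyn, mul_one, Real.norm_eq_abs, abs_le]
      constructor <;> linarith
    have h5 : ‖lam • y - x‖ = ε * ‖w‖ := by
      rw [h2, add_sub_cancel_left, hnw]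
    rw [h1]
    have h6 := norm_add_le (y - lam • y) (lam • y - x)
    linarith
  obtain ⟨T, hT1, hT2⟩ := hnear y hyn hyx (ε ^ 2) (by positivity)
  have hTw : ‖T w - w‖ ≤ κ := hT2 0
  have hTAw : ‖T (A w) - A w‖ ≤ κ := hT2 1
  -- the operator
  set B : E →L[ℝ] E := cj T A - A with hB
  have hBsk : Sk B := (hA.cj T).sub hA
  have hBn : ∀ z, ‖B z‖ ≤ 2 * ‖A‖ * ‖z‖ := by
    intro z
    have h1 : ‖cj T A z‖ ≤ ‖A‖ * ‖z‖ := by
      rw [cj_apply, T.norm_map]
      have := A.le_opNorm (T.symm z)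
      rwa [T.symm.norm_map] at this
    have h2 := A.le_opNorm z
    have h3 : B z = cj T A z - A z := rfl
    rw [h3]
    have := norm_sub_le (cj T A z) (A z)
    linarith
  have hBw : ‖B w‖ ≤ (‖A‖ + 1) * κ := by
    have h3 : B w = T (A (T.symm w - w)) + (T (A w) - A w) := by
      show T (A (T.symm w)) - A w = _
      rw [map_sub, map_sub]
      abel
    have h4 : ‖T.symm w - w‖ ≤ κ := by
      have : T.symm w - w = - T.symm (T w - w) := by
        rw [map_sub, T.symm_apply_apply]; abel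
      rw [this, norm_neg, T.symm.norm_map]
      exact hTw
    have h5 : ‖T (A (T.symm w - w))‖ ≤ ‖A‖ * κ := by
      rw [T.norm_map]
      refine (A.le_opNorm _).trans ?_
      gcongr
    rw [h3]
    have := norm_add_le (T (A (T.symm w - w))) (T (A w) - A w)
    linarith
  -- the error
  set r : E := T x - y with hr
  have hBT : B (T x) = - A (T x) := by
    show T (A (T.symm (T x))) - A (T x) = _
    rw [T.symm_apply_apply, hAx, map_zero, zero_sub]
  have hTx : T x = lam⁻¹ • (x + ε • w) + r := by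
    rw [hr, hy]; abel
  have hkey : B x = - (ε • A w) - ε • B w - lam • (A r + B r) := by
    have h1 : lam • B (T x) = B x + ε • B w + lam • B r := by
      rw [hTx, map_add, map_smul, map_add, map_smul, smul_add, smul_smul,
        mul_inv_cancel₀ hl0.ne', one_smul]
    have h2 : lam • A (T x) = ε • A w + lam • A r := by
      rw [hTx, map_add, map_smul, map_add, map_smul, smul_add, smul_smul,
        mul_inv_cancel₀ hl0.ne', one_smul, hAx, zero_add]
    have h3 : B x + ε • B w + lam • B r = - (ε • A w + lam • A r) := by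
      rw [← h1, ← h2, hBT, smul_neg]
    have h4 : B x = - (ε • A w + lam • A r) - ε • B w - lam • B r := by
      rw [← h3]; abel
    rw [h4, smul_add]
    abel
  refine ⟨(-ε⁻¹) • B, hBsk.smul _, ?_⟩
  have h1 : ((-ε⁻¹) • B) x - A w = B w + (ε⁻¹ * lam) • (A r + B r) := by
    rw [ContinuousLinearMap.smul_apply, hkey, smul_sub, smul_sub, smul_neg, smul_smul, smul_smul,
      smul_smul]
    have e1 : -ε⁻¹ * ε = -1 := by field_simp
    rw [e1]
    simp only [neg_smul, one_smul, neg_neg, neg_mul]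
    abel
  have hr2 : ‖A r + B r‖ ≤ 3 * ‖A‖ * ε ^ 2 := by
    have h2 := A.le_opNorm r
    have h3 := hBn r
    have h4 := norm_add_le (A r) (B r)
    have h5 : ‖r‖ ≤ ε ^ 2 := hT1
    have h6 : ‖A‖ * ‖r‖ ≤ ‖A‖ * ε ^ 2 := by gcongr
    nlinarith
  rw [h1]
  have h2 : ‖(ε⁻¹ * lam) • (A r + B r)‖ ≤ 6 * ‖A‖ * ε := by
    rw [norm_smul, Real.norm_of_nonneg (by positivity)]
    have h3 : ε⁻¹ * lam * ‖A r + B r‖ ≤ ε⁻¹ * (3 / 2) * (3 * ‖A‖ * ε ^ 2) := by gcongr
    have h4 : ε⁻¹ * (3 / 2) * (3 * ‖A‖ * ε ^ 2) = 9 / 2 * ‖A‖ * ε := by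
      field_simp
      ring
    have h5 : 0 ≤ ‖A‖ * ε := by positivity
    linarith
  have h3 : (‖A‖ + 1) * κ = δ / 2 := by
    rw [hκ]; field_simp
  have h4 := norm_add_le (B w) ((ε⁻¹ * lam) • (A r + B r))
  linarith

end Pool.Q193.BF
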