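import Mathlib
import Pool.Agent.Q193.BF.Skew

/-!
# Multiplication operators

A Banach space `E` on which the bounded measurable functions on `Ω` act by multiplication, with a
cyclic vector `u`.
-/

set_option autoImplicit false

namespace Pool.Q193.BF

open Filter Topology MeasureTheory Set

variable {Ω : Type*} [MeasurableSpace Ω]

/-- bounded measurable functions -/
def Bd (φ : Ω → ℝ) : Prop := Measurable φ ∧ ∃ C : ℝ, ∀ ω, |φ ω| ≤ C

theorem Bd.add {φ ψ : Ω → ℝ} (h : Bd φ) (k : Bd ψ) : Bd (φ + ψ) := by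
  obtain ⟨h1, C, hC⟩ := h
  obtain ⟨k1, D, hD⟩ := k
  exact ⟨h1.add k1, C + D, fun ω => (abs_add_le _ _).trans (add_le_add (hC ω) (hD ω))⟩

theorem Bd.mul {φ ψ : Ω → ℝ} (h : Bd φ) (k : Bd ψ) : Bd (φ * ψ) := by
  obtain ⟨h1, C, hC⟩ := h
  obtain ⟨k1, D, hD⟩ := k
  refine ⟨h1.mul k1, C * D, fun ω => ?_⟩
  rw [Pi.mul_apply, abs_mul]
  have h2 := hC ω
  have h3 := hD ω
  have h4 := abs_nonneg (φ ω)
  have h5 := abs_nonneg (ψ ω)
  have h6 : 0 ≤ C := h4.trans h2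
  gcongr

theorem Bd.smul {φ : Ω → ℝ} (c : ℝ) (h : Bd φ) : Bd (c • φ) := by
  obtain ⟨h1, C, hC⟩ := h
  refine ⟨h1.const_smul c, |c| * C, fun ω => ?_⟩
  rw [Pi.smul_apply, smul_eq_mul, abs_mul]
  have h2 := hC ω
  gcongr

theorem Bd.neg {φ : Ω → ℝ} (h : Bd φ) : Bd (-φ) := by
  obtain ⟨h1, C, hC⟩ := h
  exact ⟨h1.neg, C, fun ω => by rw [Pi.neg_apply, abs_neg]; exact hC ω⟩

theorem Bd.sub {φ ψ : Ω → ℝ} (h : Bd φ) (k : Bd ψ) : Bd (φ - ψ) := by
  rw [sub_eq_add_neg]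
  exact h.add k.neg

theorem Bd.const (c : ℝ) : Bd (fun _ : Ω => c) := ⟨measurable_const, |c|, fun _ => le_rfl⟩

theorem Bd.one : Bd (1 : Ω → ℝ) := Bd.const 1

theorem Bd.indicator {φ : Ω → ℝ} (h : Bd φ) {b : Set Ω} (hb : MeasurableSet b) :
    Bd (b.indicator φ) := by
  obtain ⟨h1, C, hC⟩ := h
  refine ⟨h1.indicator hb, C, fun ω => ?_⟩
  by_cases hω : ω ∈ b
  · rw [indicator_of_mem hω]; exact hC ω
  · rw [indicator_of_notMem hω, abs_zero]
    exact (abs_nonneg _).trans (hC ω)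

theorem Bd.ind {b : Set Ω} (hb : MeasurableSet b) : Bd (b.indicator (1 : Ω → ℝ)) :=
  Bd.one.indicator hb

theorem abs_ind_le (b : Set Ω) (ω : Ω) : |b.indicator (1 : Ω → ℝ) ω| ≤ 1 := by
  by_cases h : ω ∈ b
  · rw [indicator_of_mem h, Pi.one_apply, abs_one]
  · rw [indicator_of_notMem h, abs_zero]; exact zero_le_one

theorem Bd.abs {φ : Ω → ℝ} (h : Bd φ) : Bd (fun ω => |φ ω|) := by
  obtain ⟨h1, C, hC⟩ := h
  exact ⟨h1.abs, C, fun ω => by rw [abs_abs]; exact hC ω⟩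

theorem Bd.of_le {φ ψ : Ω → ℝ} (h : Bd ψ) (hφ : Measurable φ) (k : ∀ ω, |φ ω| ≤ |ψ ω|) :
    Bd φ := by
  obtain ⟨h1, C, hC⟩ := h
  exact ⟨hφ, C, fun ω => (k ω).trans (hC ω)⟩

theorem Bd.exists_bound {φ : Ω → ℝ} (h : Bd φ) : ∃ C : ℝ, 0 ≤ C ∧ ∀ ω, |φ ω| ≤ C := by
  obtain ⟨h1, C, hC⟩ := h
  refine ⟨|C|, abs_nonneg _, fun ω => (hC ω).trans (le_abs_self C)⟩

section Lin

variable {F : Type*} [NormedAddCommGroup F] [NormedSpace ℝ F]

/-- linear maps on the bounded measurable functions, continuous for bounded convergence -/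
structure Lin (Λ : (Ω → ℝ) → F) : Prop where
  add : ∀ φ ψ : Ω → ℝ, Bd φ → Bd ψ → Λ (φ + ψ) = Λ φ + Λ ψ
  smul : ∀ (c : ℝ) (φ : Ω → ℝ), Bd φ → Λ (c • φ) = c • Λ φ
  cont : ∀ (φ : ℕ → Ω → ℝ) (ψ : Ω → ℝ) (C : ℝ), (∀ n, Measurable (φ n)) → Measurable ψ →
    (∀ n ω, |φ n ω| ≤ C) → (∀ ω, |ψ ω| ≤ C) →
    (∀ ω, Tendsto (fun n => φ n ω) atTop (𝓝 (ψ ω))) →
    Tendsto (fun n => Λ (φ n)) atTop (𝓝 (Λ ψ))

theorem Lin.add' {Λ Λ' : (Ω → ℝ) → F} (h : Lin Λ) (h' : Lin Λ') :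
    Lin (fun φ => Λ φ + Λ' φ) := by
  refine ⟨fun φ ψ hφ hψ => ?_, fun c φ hφ => ?_, fun φ ψ C h1 h2 h3 h4 h5 => ?_⟩
  · simp only [h.add φ ψ hφ hψ, h'.add φ ψ hφ hψ]; abel
  · simp only [h.smul c φ hφ, h'.smul c φ hφ, smul_add]
  · exact (h.cont φ ψ C h1 h2 h3 h4 h5).add (h'.cont φ ψ C h1 h2 h3 h4 h5)

theorem Lin.sub' {Λ Λ' : (Ω → ℝ) → F} (h : Lin Λ) (h' : Lin Λ') :
    Lin (fun φ => Λ φ - Λ' φ) := by
  refine ⟨fun φ ψ hφ hψ => ?_, fun c φ hφ => ?_, fun φ ψ C h1 h2 h3 h4 h5 => ?_⟩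
  · simp only [h.add φ ψ hφ hψ, h'.add φ ψ hφ hψ]; abel
  · simp only [h.smul c φ hφ, h'.smul c φ hφ, smul_sub]
  · exact (h.cont φ ψ C h1 h2 h3 h4 h5).sub (h'.cont φ ψ C h1 h2 h3 h4 h5)

theorem Lin.clm {Λ : (Ω → ℝ) → F} (h : Lin Λ) {G : Type*} [NormedAddCommGroup G]
    [NormedSpace ℝ G] (g : F →L[ℝ] G) : Lin (fun φ => g (Λ φ)) := by
  refine ⟨fun φ ψ hφ hψ => ?_, fun c φ hφ => ?_, fun φ ψ C h1 h2 h3 h4 h5 => ?_⟩
  · simp only [h.add φ ψ hφ hψ, map_add]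
  · simp only [h.smul c φ hφ, map_smul]
  · exact (g.continuous.tendsto _).comp (h.cont φ ψ C h1 h2 h3 h4 h5)

/-- precomposition with a multiplication -/
theorem Lin.mulr {Λ : (Ω → ℝ) → F} (h : Lin Λ) {χ : Ω → ℝ} (hχ : Bd χ) :
    Lin (fun φ => Λ (χ * φ)) := by
  refine ⟨fun φ ψ hφ hψ => ?_, fun c φ hφ => ?_, fun φ ψ C h1 h2 h3 h4 h5 => ?_⟩
  · rw [mul_add]
    exact h.add _ _ (hχ.mul hφ) (hχ.mul hψ)
  · rw [← h.smul c _ (hχ.mul hφ)]
    congr 1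
    ext ω
    simp only [Pi.mul_apply, Pi.smul_apply, smul_eq_mul]
    ring
  · obtain ⟨D, hD0, hD⟩ := hχ.exists_bound
    refine h.cont _ _ (D * C) (fun n => hχ.1.mul (h1 n)) (hχ.1.mul h2) (fun n ω => ?_)
      (fun ω => ?_) (fun ω => ?_)
    · rw [Pi.mul_apply, abs_mul]
      have := hD ω
      have := h3 n ω
      gcongr
    · rw [Pi.mul_apply, abs_mul]
      have := hD ω
      have := h4 ω
      gcongr
    · exact (h5 ω).const_mul _

/-- a `Lin` map which vanishes on the indicators of the measurable subsets of `Z` vanishes on all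
bounded measurable functions which vanish off `Z`. -/
theorem Lin.zero_of {Λ : (Ω → ℝ) → F} (h : Lin Λ) (Z : Set Ω)
    (hZ : ∀ b : Set Ω, MeasurableSet b → b ⊆ Z → Λ (b.indicator (1 : Ω → ℝ)) = 0)
    (φ : Ω → ℝ) (hφ : Bd φ) (hφZ : ∀ ω, ω ∉ Z → φ ω = 0) : Λ φ = 0 := by
  -- simple functions
  have hs : ∀ s : SimpleFunc Ω ℝ, (∀ ω, ω ∉ Z → s ω = 0) → Λ s = 0 := by
    intro s
    induction s using SimpleFunc.induction with
    | const c hs =>
      rename_i s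
      intro h0
      have e1 : (⇑(SimpleFunc.piecewise s hs (SimpleFunc.const Ω c) (SimpleFunc.const Ω 0)) :
          Ω → ℝ) = c • s.indicator (1 : Ω → ℝ) := by
        ext ω
        by_cases hω : ω ∈ s
        · simp [SimpleFunc.coe_piecewise, hω]
        · simp [SimpleFunc.coe_piecewise, hω]
      rw [e1, h.smul _ _ (Bd.ind hs)]
      by_cases hc : c = 0
      · rw [hc, zero_smul]
      · have hsZ : s ⊆ Z := by
          intro ω hω
          by_contra hω'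
          have h1 := h0 ω hω'
          rw [e1] at h1
          simp [hω, hc] at h1
        rw [hZ s hs hsZ, smul_zero]
    | add hd hf hg =>
      rename_i f g
      intro h0
      have hbd : ∀ f : SimpleFunc Ω ℝ, Bd (f : Ω → ℝ) := by
        intro f
        refine ⟨f.measurable, ?_⟩
        obtain ⟨C, hC⟩ := f.exists_forall_norm_le
        exact ⟨C, fun ω => by rw [← Real.norm_eq_abs]; exact hC ω⟩
      rw [SimpleFunc.coe_add, h.add _ _ (hbd f) (hbd g)]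
      have h1 : ∀ ω, ω ∉ Z → f ω = 0 ∧ g ω = 0 := by
        intro ω hω
        have h2 := h0 ω hω
        rw [SimpleFunc.coe_add, Pi.add_apply] at h2
        by_cases hfω : f ω = 0
        · rw [hfω, zero_add] at h2
          exact ⟨hfω, h2⟩
        · have h3 : ω ∈ Function.support f := hfω
          have h4 : ω ∉ Function.support g := fun h5 => (Set.disjoint_left.1 hd) h3 h5
          have h5 : g ω = 0 := by
            by_contra h6
            exact h4 h6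
          rw [h5, add_zero] at h2
          exact ⟨h2, h5⟩
      rw [hf (fun ω hω => (h1 ω hω).1), hg (fun ω hω => (h1 ω hω).2), add_zero]
  obtain ⟨hm, C, hC⟩ := hφ
  set s : ℕ → SimpleFunc Ω ℝ := SimpleFunc.approxOn φ hm Set.univ 0 (mem_univ _) with hsdef
  have hb : ∀ n ω, |s n ω| ≤ |φ ω| + |φ ω| := by
    intro n ω
    have := SimpleFunc.norm_approxOn_zero_le hm (mem_univ (0 : ℝ)) ω n
    simpa only [Real.norm_eq_abs] using this
  have hlim := h.cont (fun n => (s n : Ω → ℝ)) φ (C + C) (fun n => (s n).measurable) hm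
    (fun n ω => (hb n ω).trans (add_le_add (hC ω) (hC ω)))
    (fun ω => (hC ω).trans (by have := (abs_nonneg _).trans (hC ω); linarith))
    (fun ω => SimpleFunc.tendsto_approxOn hm (mem_univ _) (by simp))
  have hz : ∀ n, Λ (s n) = 0 := by
    intro n
    refine hs _ (fun ω hω => ?_)
    have h1 := hb n ω
    rw [hφZ ω hω, abs_zero, add_zero] at h1
    exact abs_nonpos_iff.1 h1
  have h2 : Tendsto (fun _ : ℕ => (0 : F)) atTop (𝓝 (Λ φ)) := by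
    refine hlim.congr (fun n => hz n)
  exact tendsto_nhds_unique h2 tendsto_const_nhds

theorem Lin.zero_all {Λ : (Ω → ℝ) → F} (h : Lin Λ)
    (hZ : ∀ b : Set Ω, MeasurableSet b → Λ (b.indicator (1 : Ω → ℝ)) = 0)
    (φ : Ω → ℝ) (hφ : Bd φ) : Λ φ = 0 :=
  h.zero_of Set.univ (fun b hb _ => hZ b hb) φ hφ (fun ω hω => absurd (mem_univ ω) hω)

end Lin

/-- an action of the bounded measurable functions by multiplications, with a cyclic vector -/
structure Mult (Ω : Type*) [MeasurableSpace Ω] (E : Type*) [NormedAddCommGroup E]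
    [NormedSpace ℝ E] where
  M : (Ω → ℝ) → (E →L[ℝ] E)
  one : M 1 = 1
  add : ∀ φ ψ : Ω → ℝ, Bd φ → Bd ψ → M (φ + ψ) = M φ + M ψ
  mul : ∀ φ ψ : Ω → ℝ, Bd φ → Bd ψ → M (φ * ψ) = M φ * M ψ
  smul : ∀ (c : ℝ) (φ : Ω → ℝ), Bd φ → M (c • φ) = c • M φ
  mono : ∀ (φ ψ : Ω → ℝ) (x : E), Bd φ → Bd ψ → (∀ ω, |φ ω| ≤ |ψ ω|) → ‖M φ x‖ ≤ ‖M ψ x‖
  dom : ∀ (φ : ℕ → Ω → ℝ) (C : ℝ) (x : E), (∀ n, Measurable (φ n)) → (∀ n ω, |φ n ω| ≤ C) →
    (∀ ω, Tendsto (fun n => φ n ω) atTop (𝓝 0)) → Tendsto (fun n => M (φ n) x) atTop (𝓝 0)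
  u : E
  cyc : ∀ v : E, ∃ r : Ω → ℝ, Measurable r ∧ ∀ n : ℕ,
    M ({ω | |r ω| ≤ n}.indicator r) u = M ({ω | |r ω| ≤ n}.indicator 1) v

namespace Mult

variable {E : Type*} [NormedAddCommGroup E] [NormedSpace ℝ E] (D : Mult Ω E)

theorem mulE {φ ψ χ : Ω → ℝ} (hφ : Bd φ) (hψ : Bd ψ) (h : ∀ ω, χ ω = φ ω * ψ ω) (x : E) :
    D.M φ (D.M ψ x) = D.M χ x := by
  have e : χ = φ * ψ := funext h
  rw [e, D.mul _ _ hφ hψ]
  rfl

theorem comm {φ ψ : Ω → ℝ} (hφ : Bd φ) (hψ : Bd ψ) (x : E) :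
    D.M φ (D.M ψ x) = D.M ψ (D.M φ x) := by
  rw [D.mulE hφ hψ (fun ω => rfl : ∀ ω, (φ * ψ) ω = _),
    D.mulE hψ hφ (fun ω => by rw [Pi.mul_apply, mul_comm] : ∀ ω, (φ * ψ) ω = _)]

theorem addE {φ ψ χ : Ω → ℝ} (hφ : Bd φ) (hψ : Bd ψ) (h : ∀ ω, χ ω = φ ω + ψ ω) (x : E) :
    D.M χ x = D.M φ x + D.M ψ x := by
  have e : χ = φ + ψ := funext h
  rw [e, D.add _ _ hφ hψ]
  rfl

theorem smulE {φ χ : Ω → ℝ} (hφ : Bd φ) (c : ℝ) (h : ∀ ω, χ ω = c * φ ω) (x : E) :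
    D.M χ x = c • D.M φ x := by
  have e : χ = c • φ := funext h
  rw [e, D.smul _ _ hφ]
  rfl

theorem subE {φ ψ χ : Ω → ℝ} (hφ : Bd φ) (hψ : Bd ψ) (h : ∀ ω, χ ω = φ ω - ψ ω) (x : E) :
    D.M χ x = D.M φ x - D.M ψ x := by
  rw [D.addE hφ (hψ.smul (-1)) (fun ω => by rw [h ω, Pi.smul_apply, smul_eq_mul]; ring),
    D.smulE (χ := (-1 : ℝ) • ψ) hψ (-1) (fun ω => by rw [Pi.smul_apply, smul_eq_mul])]
  rw [neg_smul, one_smul, sub_eq_add_neg]

theorem M_smul {φ : Ω → ℝ} (hφ : Bd φ) (c : ℝ) (x : E) : D.M (c • φ) x = c • D.M φ x :=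
  D.smulE hφ c (fun _ => rfl) x

theorem M_add {φ ψ : Ω → ℝ} (hφ : Bd φ) (hψ : Bd ψ) (x : E) :
    D.M (φ + ψ) x = D.M φ x + D.M ψ x := D.addE hφ hψ (fun _ => rfl) x

theorem M_sub {φ ψ : Ω → ℝ} (hφ : Bd φ) (hψ : Bd ψ) (x : E) :
    D.M (φ - ψ) x = D.M φ x - D.M ψ x := D.subE hφ hψ (fun _ => rfl) x

theorem one_apply (x : E) : D.M 1 x = x := by
  rw [D.one]; rfl

theorem const_apply (c : ℝ) (x : E) : D.M (fun _ => c) x = c • x := by
  rw [D.smulE Bd.one c (fun ω => by simp), D.one_apply]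

theorem zeroE {φ : Ω → ℝ} (h : ∀ ω, φ ω = 0) (x : E) : D.M φ x = 0 := by
  have e : φ = fun _ => 0 := funext h
  rw [e, D.const_apply, zero_smul]

theorem congr {φ ψ : Ω → ℝ} (h : ∀ ω, φ ω = ψ ω) (x : E) : D.M φ x = D.M ψ x := by
  rw [funext h]

theorem norm_le {φ : Ω → ℝ} (hφ : Bd φ) {C : ℝ} (hC : 0 ≤ C) (h : ∀ ω, |φ ω| ≤ C) (x : E) :
    ‖D.M φ x‖ ≤ C * ‖x‖ := by
  have h1 := D.mono φ (fun _ => C) x hφ (Bd.const C) (fun ω => by rw [abs_of_nonneg hC]; exact h ω)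
  rwa [D.const_apply, norm_smul, Real.norm_of_nonneg hC] at h1

theorem norm_eq {φ ψ : Ω → ℝ} (hφ : Bd φ) (hψ : Bd ψ) (h : ∀ ω, |φ ω| = |ψ ω|) (x : E) :
    ‖D.M φ x‖ = ‖D.M ψ x‖ :=
  le_antisymm (D.mono φ ψ x hφ hψ (fun ω => (h ω).le)) (D.mono ψ φ x hψ hφ (fun ω => (h ω).ge))

theorem lin (x : E) : Lin (fun φ : Ω → ℝ => D.M φ x) := by
  refine ⟨fun φ ψ hφ hψ => ?_, fun c φ hφ => ?_, fun φ ψ C h1 h2 h3 h4 h5 => ?_⟩
  · exact D.addE hφ hψ (fun ω => rfl) x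
  · exact D.smulE hφ c (fun ω => rfl) x
  · rw [tendsto_iff_norm_sub_tendsto_zero]
    have h6 := D.dom (fun n => φ n - ψ) (C + C) x (fun n => (h1 n).sub h2)
      (fun n ω => (abs_sub (φ n ω) (ψ ω)).trans (add_le_add (h3 n ω) (h4 ω)))
      (fun ω => by
        have := (h5 ω).sub_const (ψ ω)
        rwa [sub_self] at this)
    have h7 := h6.norm
    rw [norm_zero] at h7
    refine h7.congr (fun n => ?_)
    rw [D.subE (χ := φ n - ψ) ⟨h1 n, C, h3 n⟩ ⟨h2, C, h4⟩ (fun ω => rfl)]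

/-- band projections -/
noncomputable def P (b : Set Ω) : E →L[ℝ] E := D.M (b.indicator 1)

theorem P_P {b c : Set Ω} (hb : MeasurableSet b) (hc : MeasurableSet c) (x : E) :
    D.P b (D.P c x) = D.P (b ∩ c) x := by
  refine D.mulE (Bd.ind hb) (Bd.ind hc) (fun ω => ?_) x
  by_cases h1 : ω ∈ b <;> by_cases h2 : ω ∈ c <;> simp [h1, h2]

theorem P_idem {b : Set Ω} (hb : MeasurableSet b) (x : E) : D.P b (D.P b x) = D.P b x := by
  rw [D.P_P hb hb, inter_self]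

theorem P_disj {b c : Set Ω} (hb : MeasurableSet b) (hc : MeasurableSet c) (h : Disjoint b c)
    (x : E) : D.P b (D.P c x) = 0 := by
  rw [D.P_P hb hc, h.inter_eq]
  exact D.zeroE (fun ω => by simp) x

theorem P_compl {b : Set Ω} (hb : MeasurableSet b) (x : E) : D.P b x + D.P bᶜ x = x := by
  rw [P, P, ← D.addE (Bd.ind hb) (Bd.ind hb.compl) (χ := 1) (fun ω => by
    by_cases h : ω ∈ b <;> simp [h]), D.one_apply]

theorem P_univ (x : E) : D.P univ x = x := by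
  rw [P, indicator_univ, D.one_apply]

theorem P_empty (x : E) : D.P ∅ x = 0 := D.zeroE (fun ω => by simp) x

theorem P_le {b : Set Ω} (hb : MeasurableSet b) (x : E) : ‖D.P b x‖ ≤ ‖x‖ := by
  have := D.norm_le (Bd.ind hb) zero_le_one (fun ω => by
    by_cases h : ω ∈ b <;> simp [h]) x
  rwa [one_mul] at this

theorem P_M {b : Set Ω} (hb : MeasurableSet b) {φ : Ω → ℝ} (hφ : Bd φ) (x : E) :
    D.P b (D.M φ x) = D.M (b.indicator φ) x :=
  D.mulE (Bd.ind hb) hφ (fun ω => by by_cases h : ω ∈ b <;> simp [h]) x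

theorem M_P {b : Set Ω} (hb : MeasurableSet b) {φ : Ω → ℝ} (hφ : Bd φ) (x : E) :
    D.M φ (D.P b x) = D.M (b.indicator φ) x :=
  D.mulE hφ (Bd.ind hb) (fun ω => by by_cases h : ω ∈ b <;> simp [h]) x

theorem P_mono {b c : Set Ω} (hb : MeasurableSet b) (hc : MeasurableSet c) (h : b ⊆ c) (x : E) :
    ‖D.P b x‖ ≤ ‖D.P c x‖ :=
  D.mono _ _ x (Bd.ind hb) (Bd.ind hc) (fun ω => by
    by_cases h1 : ω ∈ b
    · have h2 := h h1; simp [h1, h2]
    · simp [h1])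

theorem P_sub {b c : Set Ω} (hb : MeasurableSet b) (hc : MeasurableSet c) (h : b ⊆ c) (x : E) :
    D.P c x = D.P b x + D.P (c \ b) x := by
  refine D.addE (Bd.ind hb) (Bd.ind (hc.diff hb)) (fun ω => ?_) x
  by_cases h1 : ω ∈ b
  · have h2 := h h1; simp [h1, h2]
  · by_cases h2 : ω ∈ c <;> simp [h1, h2]

/-- the reflection `1 - 2 P b` -/
noncomputable def R (b : Set Ω) (hb : MeasurableSet b) : E ≃ₗᵢ[ℝ] E where
  toLinearEquiv := LinearEquiv.ofInvolutive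
    ((D.M (fun ω => 1 - 2 * b.indicator 1 ω) : E →L[ℝ] E) : E →ₗ[ℝ] E) (by
      intro x
      have h1 : Bd (fun ω => 1 - 2 * b.indicator (1 : Ω → ℝ) ω) :=
        (Bd.const 1).sub ((Bd.ind hb).smul 2)
      show D.M _ (D.M _ x) = x
      rw [D.mulE h1 h1 (χ := 1) (fun ω => by by_cases h : ω ∈ b <;> simp [h] <;> norm_num),
        D.one_apply])
  norm_map' := by
    intro x
    have h1 : Bd (fun ω => 1 - 2 * b.indicator (1 : Ω → ℝ) ω) :=
      (Bd.const 1).sub ((Bd.ind hb).smul 2)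
    show ‖D.M _ x‖ = ‖x‖
    rw [D.norm_eq h1 Bd.one (fun ω => by by_cases h : ω ∈ b <;> simp [h] <;> norm_num),
      D.one_apply]

theorem R_apply (b : Set Ω) (hb : MeasurableSet b) (x : E) :
    D.R b hb x = x - (2 : ℝ) • D.P b x := by
  show D.M _ x = _
  rw [D.subE Bd.one ((Bd.ind hb).smul 2) (fun ω => by simp), D.one_apply,
    D.smulE (Bd.ind hb) 2 (fun ω => by simp)]
  rfl

theorem R_symm_apply (b : Set Ω) (hb : MeasurableSet b) (x : E) :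
    (D.R b hb).symm x = x - (2 : ℝ) • D.P b x := by
  show D.R b hb x = _
  exact D.R_apply b hb x

/-- the approximation of a vector by multiples of the cyclic vector -/
theorem exists_approx (v : E) : ∃ r : Ω → ℝ, Measurable r ∧
    (∀ n : ℕ, D.M ({ω | |r ω| ≤ n}.indicator r) D.u = D.P {ω | |r ω| ≤ n} v) ∧
    Tendsto (fun n : ℕ => D.M ({ω | |r ω| ≤ n}.indicator r) D.u) atTop (𝓝 v) := by
  obtain ⟨r, hr, h⟩ := D.cyc v
  refine ⟨r, hr, h, ?_⟩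
  have h1 : ∀ n : ℕ, MeasurableSet {ω | |r ω| ≤ n} := fun n =>
    measurableSet_le hr.abs measurable_const
  have h2 := (D.lin v).cont (fun n : ℕ => {ω | |r ω| ≤ n}.indicator (1 : Ω → ℝ)) 1 1
    (fun n => measurable_one.indicator (h1 n)) measurable_one
    (fun n ω => by by_cases h : ω ∈ {ω | |r ω| ≤ (n : ℝ)} <;> simp [h, indicator])
    (fun ω => by simp) (fun ω => by
      refine tendsto_const_nhds.congr' ?_
      obtain ⟨N, hN⟩ := exists_nat_ge |r ω|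
      filter_upwards [eventually_ge_atTop N] with n hn
      have h3 : ω ∈ {ω | |r ω| ≤ (n : ℝ)} := by
        show |r ω| ≤ n
        have : (N : ℝ) ≤ n := by exact_mod_cast hn
        linarith
      rw [indicator_of_mem h3])
  rw [D.one_apply] at h2
  refine h2.congr (fun n => ?_)
  rw [h n]

theorem bd_trunc {r : Ω → ℝ} (hr : Measurable r) (n : ℕ) : Bd ({ω | |r ω| ≤ n}.indicator r) := by
  have h1 : MeasurableSet {ω | |r ω| ≤ (n : ℝ)} := measurableSet_le hr.abs measurable_const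
  refine ⟨hr.indicator h1, n, fun ω => ?_⟩
  by_cases h : ω ∈ {ω | |r ω| ≤ (n : ℝ)}
  · rw [indicator_of_mem h]; exact h
  · rw [indicator_of_notMem h, abs_zero]; positivity

/-- continuous maps which vanish on the orbit of `u` vanish -/
theorem zero_of_u {F : Type*} [NormedAddCommGroup F] [NormedSpace ℝ F] (g : E →L[ℝ] F)
    (h : ∀ φ : Ω → ℝ, Bd φ → g (D.M φ D.u) = 0) (v : E) : g v = 0 := by
  obtain ⟨r, hr, -, h2⟩ := D.exists_approx v
  have h3 := (g.continuous.tendsto v).comp h2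
  have h4 : Tendsto (fun _ : ℕ => (0 : F)) atTop (𝓝 (g v)) :=
    h3.congr (fun n => h _ (bd_trunc hr n))
  exact tendsto_nhds_unique h4 tendsto_const_nhds

end Mult

end Pool.Q193.BF
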