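import Mathlib
import Pool.Agent.Q193.BF.Mult

/-!
# Separable Banach function spaces

A separable solid space of measurable functions has an order continuous norm and a weak unit, so it
carries a multiplication action with a cyclic vector.
-/

set_option autoImplicit false

namespace Pool.Q193.BF

open Filter Topology MeasureTheory Set

variable {Ω : Type*} [MeasurableSpace Ω] {E : Type*} [NormedAddCommGroup E] [NormedSpace ℝ E]

/-- a multiplication action without continuity -/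
structure Pre (Ω : Type*) [MeasurableSpace Ω] (E : Type*) [NormedAddCommGroup E]
    [NormedSpace ℝ E] where
  M : (Ω → ℝ) → (E →L[ℝ] E)
  one : M 1 = 1
  add : ∀ φ ψ : Ω → ℝ, Bd φ → Bd ψ → M (φ + ψ) = M φ + M ψ
  mul : ∀ φ ψ : Ω → ℝ, Bd φ → Bd ψ → M (φ * ψ) = M φ * M ψ
  smul : ∀ (c : ℝ) (φ : Ω → ℝ), Bd φ → M (c • φ) = c • M φ
  mono : ∀ (φ ψ : Ω → ℝ) (x : E), Bd φ → Bd ψ → (∀ ω, |φ ω| ≤ |ψ ω|) → ‖M φ x‖ ≤ ‖M ψ x‖
  sep : ∀ (c : ℕ → Set Ω) (z : E), (∀ n, MeasurableSet (c n)) → (∀ ω, ∃ n, ω ∈ c n) →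
    (∀ n, M ((c n).indicator 1) z = 0) → z = 0

namespace Pre

variable (D : Pre Ω E)

theorem ind_mul {b c : Set Ω} (hb : MeasurableSet b) (hc : MeasurableSet c) (x : E) :
    D.M (b.indicator 1) (D.M (c.indicator 1) x) = D.M ((b ∩ c).indicator 1) x := by
  have e : (b ∩ c).indicator (1 : Ω → ℝ) = b.indicator 1 * c.indicator 1 := by
    ext ω
    by_cases h1 : ω ∈ b <;> by_cases h2 : ω ∈ c <;> simp [h1, h2]
  rw [e, D.mul _ _ (Bd.ind hb) (Bd.ind hc)]
  rfl

theorem ind_empty (x : E) : D.M ((∅ : Set Ω).indicator 1) x = 0 := by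
  have e : (∅ : Set Ω).indicator (1 : Ω → ℝ) = (0 : ℝ) • (1 : Ω → ℝ) := by
    ext ω; simp
  rw [e, D.smul 0 1 Bd.one, zero_smul]
  rfl

theorem ind_sdiff {b c : Set Ω} (hb : MeasurableSet b) (hc : MeasurableSet c) (h : c ⊆ b)
    (x : E) : D.M (b.indicator 1) x - D.M (c.indicator 1) x = D.M ((b \ c).indicator 1) x := by
  have e : b.indicator (1 : Ω → ℝ) = (b \ c).indicator 1 + c.indicator 1 := by
    ext ω
    rw [Pi.add_apply]
    by_cases h1 : ω ∈ c
    · have h2 := h h1; simp [h1, h2]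
    · by_cases h2 : ω ∈ b <;> simp [h1, h2]
  rw [e, D.add _ _ (Bd.ind (hb.diff hc)) (Bd.ind hc)]
  exact add_sub_cancel_right _ _

theorem ind_mono {b c : Set Ω} (hb : MeasurableSet b) (hc : MeasurableSet c) (h : b ⊆ c) (x : E) :
    ‖D.M (b.indicator 1) x‖ ≤ ‖D.M (c.indicator 1) x‖ :=
  D.mono _ _ x (Bd.ind hb) (Bd.ind hc) (fun ω => by
    by_cases h1 : ω ∈ b
    · have h2 := h h1; simp [h1, h2]
    · simp [h1])

theorem ind_le {b : Set Ω} (hb : MeasurableSet b) (x : E) : ‖D.M (b.indicator 1) x‖ ≤ ‖x‖ := by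
  have h := D.mono (b.indicator 1) 1 x (Bd.ind hb) Bd.one (fun ω => by
    rw [Pi.one_apply, abs_one]
    exact abs_ind_le b ω)
  rw [D.one] at h
  exact h

/-- order continuity on sets -/
theorem oc_sets [CompleteSpace E] [TopologicalSpace.SeparableSpace E] (b : ℕ → Set Ω)
    (hb : ∀ n, MeasurableSet (b n)) (hanti : Antitone b) (hempty : ∀ ω, ∃ n, ω ∉ b n) (x : E) :
    Tendsto (fun n => D.M ((b n).indicator 1) x) atTop (𝓝 0) := by
  -- Cauchy
  have hc : CauchySeq (fun n => D.M ((b n).indicator 1) x) := by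
    by_contra hcon
    rw [Metric.cauchySeq_iff'] at hcon
    push Not at hcon
    obtain ⟨α, hα, hα'⟩ := hcon
    have hnext : ∀ N, ∃ n, N < n ∧ α ≤ ‖D.M ((b N \ b n).indicator 1) x‖ := by
      intro N
      obtain ⟨n, hn, h1⟩ := hα' N
      have hNn : N ≠ n := by
        rintro rfl
        rw [dist_self] at h1
        linarith
      refine ⟨n, lt_of_le_of_ne hn hNn, ?_⟩
      rw [dist_eq_norm, norm_sub_rev, D.ind_sdiff (hb N) (hb n) (hanti hn)] at h1
      exact h1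
    choose nx hnx1 hnx2 using hnext
    set s : ℕ → ℕ := fun k => nx^[k] 0 with hs
    have hs1 : ∀ k, s (k + 1) = nx (s k) := fun k => Function.iterate_succ_apply' nx k 0
    have hsm : StrictMono s := strictMono_nat_of_lt_succ (fun k => by
      rw [hs1]; exact hnx1 _)
    set c : ℕ → Set Ω := fun k => b (s k) \ b (s (k + 1)) with hc
    have hcm : ∀ k, MeasurableSet (c k) := fun k => (hb _).diff (hb _)
    have hcα : ∀ k, α ≤ ‖D.M ((c k).indicator 1) x‖ := by
      intro k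
      have := hnx2 (s k)
      rw [← hs1] at this
      exact this
    have hcd : ∀ i j, i ≠ j → ∀ ω, ω ∈ c i → ω ∉ c j := by
      intro i j hij ω h1 h2
      rcases lt_or_gt_of_ne hij with h | h
      · exact h1.2 (hanti (hsm.monotone (show i + 1 ≤ j by omega)) h2.1)
      · exact h2.2 (hanti (hsm.monotone (show j + 1 ≤ i by omega)) h1.1)
    set X : Set ℕ → E := fun A => D.M ((⋃ k ∈ A, c k).indicator 1) x with hX
    have hXm : ∀ A : Set ℕ, MeasurableSet (⋃ k ∈ A, c k) := fun A =>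
      MeasurableSet.biUnion A.to_countable (fun k _ => hcm k)
    have hsep : ∀ (A B : Set ℕ) (k : ℕ), k ∈ A → k ∉ B → α ≤ ‖X A - X B‖ := by
      intro A B k hA hB
      have h1 : D.M ((c k).indicator 1) (X A - X B) = D.M ((c k).indicator 1) x := by
        rw [map_sub]
        simp only [hX]
        rw [D.ind_mul (hcm k) (hXm A), D.ind_mul (hcm k) (hXm B)]
        have e1 : c k ∩ ⋃ k ∈ A, c k = c k :=
          inter_eq_left.2 (subset_biUnion_of_mem (u := fun k => c k) hA)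
        have e2 : c k ∩ ⋃ k ∈ B, c k = ∅ := by
          rw [← disjoint_iff_inter_eq_empty, Set.disjoint_left]
          intro ω h1 h2
          simp only [mem_iUnion] at h2
          obtain ⟨j, hj, h3⟩ := h2
          exact hcd k j (fun h => hB (h ▸ hj)) ω h1 h3
        rw [e1, e2, D.ind_empty, sub_zero]
      have h2 := D.ind_le (hcm k) (X A - X B)
      rw [h1] at h2
      exact (hcα k).trans h2
    have hsep' : ∀ A B : Set ℕ, A ≠ B → α ≤ ‖X A - X B‖ := by
      intro A B hAB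
      by_contra hcon
      apply hAB
      ext k
      constructor
      · intro h1
        by_contra h2
        exact hcon (hsep A B k h1 h2)
      · intro h1
        by_contra h2
        rw [norm_sub_rev] at hcon
        exact hcon (hsep B A k h1 h2)
    have hne : Nonempty E := ⟨x⟩
    have hd := TopologicalSpace.denseRange_denseSeq E
    choose F hF using fun A : Set ℕ => hd.exists_dist_lt (X A) (half_pos hα)
    refine Function.cantor_injective F (fun A B hAB => ?_)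
    by_contra hne
    have h1 := hsep' A B hne
    have h2 := hF A
    have h3 := hF B
    rw [hAB] at h2
    rw [dist_eq_norm] at h2
    rw [dist_comm, dist_eq_norm] at h3
    have h4 : X A - X B = (X A - TopologicalSpace.denseSeq E (F B)) +
        (TopologicalSpace.denseSeq E (F B) - X B) := by abel
    rw [h4] at h1
    have := norm_add_le (X A - TopologicalSpace.denseSeq E (F B))
      (TopologicalSpace.denseSeq E (F B) - X B)
    linarith
  obtain ⟨z, hz⟩ := cauchySeq_tendsto_of_complete hc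
  have hz0 : z = 0 := by
    refine D.sep (fun n => (b n)ᶜ) z (fun n => (hb n).compl) hempty (fun k => ?_)
    have h1 : Tendsto (fun n => D.M ((b k)ᶜ.indicator 1) (D.M ((b n).indicator 1) x)) atTop
        (𝓝 (D.M ((b k)ᶜ.indicator 1) z)) := ((D.M _).continuous.tendsto z).comp hz
    refine tendsto_nhds_unique h1 (tendsto_const_nhds.congr' ?_)
    filter_upwards [eventually_ge_atTop k] with n hn
    rw [D.ind_mul (hb k).compl (hb n)]
    have e : (b k)ᶜ ∩ b n = ∅ := by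
      rw [← disjoint_iff_inter_eq_empty, Set.disjoint_left]
      intro ω h1 h2
      exact h1 (hanti hn h2)
    rw [e, D.ind_empty]
  rw [hz0] at hz
  exact hz

theorem dom [CompleteSpace E] [TopologicalSpace.SeparableSpace E] (φ : ℕ → Ω → ℝ) (C : ℝ) (x : E)
    (hm : ∀ n, Measurable (φ n)) (hC : ∀ n ω, |φ n ω| ≤ C)
    (hφ : ∀ ω, Tendsto (fun n => φ n ω) atTop (𝓝 0)) :
    Tendsto (fun n => D.M (φ n) x) atTop (𝓝 0) := by
  by_cases hΩ : IsEmpty Ω
  · -- everything is zero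
    have h0 : ∀ z : E, z = 0 := fun z => D.sep (fun _ => ∅) z (fun _ => MeasurableSet.empty)
      (fun ω => (hΩ.false ω).elim) (fun _ => D.ind_empty z)
    have : (fun n => D.M (φ n) x) = fun _ => (0 : E) := funext fun n => h0 _
    rw [this]
    exact tendsto_const_nhds
  rw [not_isEmpty_iff] at hΩ
  obtain ⟨ω0⟩ := hΩ
  have hC0 : 0 ≤ C := (abs_nonneg _).trans (hC 0 ω0)
  rw [Metric.tendsto_atTop]
  intro ε hε
  set ε' : ℝ := ε / (2 * (‖x‖ + 1)) with hε'
  have hε'0 : 0 < ε' := by positivity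
  set b : ℕ → Set Ω := fun n => ⋃ m ∈ {m | n ≤ m}, {ω | ε' < |φ m ω|} with hb
  have hbm : ∀ n, MeasurableSet (b n) := fun n =>
    MeasurableSet.biUnion (to_countable _) (fun m _ => measurableSet_lt measurable_const (hm m).abs)
  have hanti : Antitone b := by
    intro i j hij ω hω
    simp only [hb, mem_iUnion] at hω ⊢
    obtain ⟨m, hm1, hm2⟩ := hω
    exact ⟨m, hij.trans hm1, hm2⟩
  have hemp : ∀ ω, ∃ n, ω ∉ b n := by
    intro ω
    have h1 := (hφ ω).abs
    rw [abs_zero] at h1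
    obtain ⟨N, hN⟩ := eventually_atTop.1 (h1.eventually_lt_const hε'0)
    refine ⟨N, ?_⟩
    intro h2
    simp only [hb, mem_iUnion] at h2
    obtain ⟨m, hm1, hm2⟩ := h2
    have h3 := hN m hm1
    exact lt_asymm h3 hm2
  have h1 := D.oc_sets b hbm hanti hemp x
  rw [Metric.tendsto_atTop] at h1
  obtain ⟨N, hN⟩ := h1 (ε / (2 * (C + 1))) (by positivity)
  refine ⟨N, fun n hn => ?_⟩
  rw [dist_zero_right]
  have h2 := hN n hn
  rw [dist_zero_right] at h2
  have hBn : Bd (φ n) := ⟨hm n, C, hC n⟩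
  have hB2 : Bd (ε' • (1 : Ω → ℝ) + C • (b n).indicator (1 : Ω → ℝ)) :=
    (Bd.one.smul ε').add ((Bd.ind (hbm n)).smul C)
  have h3 := D.mono (φ n) (ε' • (1 : Ω → ℝ) + C • (b n).indicator (1 : Ω → ℝ)) x hBn hB2
    (fun ω => by
      rw [Pi.add_apply, Pi.smul_apply, Pi.smul_apply, Pi.one_apply, smul_eq_mul, smul_eq_mul,
        mul_one]
      by_cases hω : ω ∈ b n
      · rw [indicator_of_mem hω, Pi.one_apply, mul_one,
          abs_of_nonneg (by linarith : 0 ≤ ε' + C)]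
        have := hC n ω
        linarith
      · rw [indicator_of_notMem hω, mul_zero, add_zero, abs_of_pos hε'0]
        by_contra h4
        apply hω
        simp only [hb, mem_iUnion]
        exact ⟨n, le_refl n, not_le.1 h4⟩)
  rw [D.add _ _ (Bd.one.smul ε') ((Bd.ind (hbm n)).smul C), D.smul _ _ Bd.one,
    D.smul _ _ (Bd.ind (hbm n)), D.one] at h3
  have h4 : ‖(ε' • (1 : E →L[ℝ] E) + C • D.M ((b n).indicator 1)) x‖ ≤
      ε' * ‖x‖ + C * ‖D.M ((b n).indicator 1) x‖ := by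
    have e1 : ‖ε' • x‖ = ε' * ‖x‖ := by
      rw [norm_smul, Real.norm_of_nonneg hε'0.le]
    have e2 : ‖C • D.M ((b n).indicator 1) x‖ = C * ‖D.M ((b n).indicator 1) x‖ := by
      rw [norm_smul, Real.norm_of_nonneg hC0]
    have e3 : (ε' • (1 : E →L[ℝ] E) + C • D.M ((b n).indicator 1)) x =
        ε' • x + C • D.M ((b n).indicator 1) x := rfl
    rw [e3, ← e1, ← e2]
    exact norm_add_le _ _
  have h5 : ε' * ‖x‖ < ε / 2 := by
    rw [hε', div_mul_eq_mul_div, div_lt_div_iff₀ (by positivity) two_pos]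
    nlinarith [norm_nonneg x]
  have h6 : C * ‖D.M ((b n).indicator 1) x‖ ≤ ε / 2 := by
    have h7 : C * ‖D.M ((b n).indicator 1) x‖ ≤ (C + 1) * (ε / (2 * (C + 1))) := by
      have := norm_nonneg (D.M ((b n).indicator 1) x)
      have h8 := h2.le
      nlinarith
    have h8 : (C + 1) * (ε / (2 * (C + 1))) = ε / 2 := by field_simp
    linarith
  linarith

end Pre

section FS

variable {m : Measure Ω} (ι : E →ₗ[ℝ] (Ω →ₘ[m] ℝ)) (hinj : Function.Injective ι)
  (hsol : ∀ (x : E) (g : Ω →ₘ[m] ℝ), (∀ᵐ ω ∂m, |g ω| ≤ |ι x ω|) → ∃ y : E, ι y = g ∧ ‖y‖ ≤ ‖x‖)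

include hinj

theorem eq_of_ae {x y : E} (h : ∀ᵐ ω ∂m, ι x ω = ι y ω) : x = y :=
  hinj (AEEqFun.ext h)

include hsol

theorem norm_le_of_ae {x y : E} (h : ∀ᵐ ω ∂m, |ι x ω| ≤ |ι y ω|) : ‖x‖ ≤ ‖y‖ := by
  obtain ⟨z, hz1, hz2⟩ := hsol y (ι x) h
  rw [← hinj hz1]
  exact hz2

omit hinj in
theorem exists_mul (φ : Ω → ℝ) (hφ : Bd φ) (x : E) :
    ∃ y : E, ∀ᵐ ω ∂m, ι y ω = φ ω * ι x ω := by
  obtain ⟨C, hC0, hC⟩ := hφ.exists_bound
  obtain ⟨y, hy, -⟩ := hsol (C • x) (AEEqFun.mk φ hφ.1.aestronglyMeasurable * ι x) (by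
    filter_upwards [AEEqFun.coeFn_mul (AEEqFun.mk φ hφ.1.aestronglyMeasurable) (ι x),
      AEEqFun.coeFn_mk φ (hφ.1.aestronglyMeasurable (μ := m)),
      AEEqFun.coeFn_smul C (ι x)] with ω h1 h2 h3
    rw [h1, map_smul, h3, Pi.mul_apply, h2, Pi.smul_apply, smul_eq_mul, abs_mul, abs_mul,
      abs_of_nonneg hC0]
    have := hC ω
    gcongr)
  refine ⟨y, ?_⟩
  filter_upwards [AEEqFun.coeFn_mul (AEEqFun.mk φ hφ.1.aestronglyMeasurable) (ι x),
    AEEqFun.coeFn_mk φ (hφ.1.aestronglyMeasurable (μ := m))] with ω h1 h2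
  rw [hy, h1, Pi.mul_apply, h2]

theorem exists_pre : ∃ D : Pre Ω E, ∀ φ, Bd φ → ∀ x, ∀ᵐ ω ∂m, ι (D.M φ x) ω = φ ω * ι x ω := by
  classical
  choose F hF using exists_mul ι hsol
  have hadd : ∀ (φ : Ω → ℝ) (hφ : Bd φ) (x y : E), F φ hφ (x + y) = F φ hφ x + F φ hφ y := by
    intro φ hφ x y
    refine eq_of_ae ι hinj ?_
    filter_upwards [hF φ hφ (x + y), hF φ hφ x, hF φ hφ y, AEEqFun.coeFn_add (ι x) (ι y),
      AEEqFun.coeFn_add (ι (F φ hφ x)) (ι (F φ hφ y))] with ω h1 h2 h3 h4 h5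
    rw [h1, map_add, map_add, h4, h5, Pi.add_apply, Pi.add_apply, h2, h3]
    ring
  have hsmul : ∀ (φ : Ω → ℝ) (hφ : Bd φ) (c : ℝ) (x : E), F φ hφ (c • x) = c • F φ hφ x := by
    intro φ hφ c x
    refine eq_of_ae ι hinj ?_
    filter_upwards [hF φ hφ (c • x), hF φ hφ x, AEEqFun.coeFn_smul c (ι x),
      AEEqFun.coeFn_smul c (ι (F φ hφ x))] with ω h1 h2 h3 h4
    rw [h1, map_smul, map_smul, h3, h4, Pi.smul_apply, Pi.smul_apply, h2, smul_eq_mul, smul_eq_mul]
    ring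
  have hnorm : ∀ (φ : Ω → ℝ) (hφ : Bd φ) (C : ℝ), (∀ ω, |φ ω| ≤ C) → 0 ≤ C → ∀ x,
      ‖F φ hφ x‖ ≤ C * ‖x‖ := by
    intro φ hφ C hC hC0 x
    have h1 : ‖F φ hφ x‖ ≤ ‖C • x‖ := by
      refine norm_le_of_ae ι hinj hsol ?_
      filter_upwards [hF φ hφ x, AEEqFun.coeFn_smul C (ι x)] with ω h1 h2
      rw [h1, map_smul, h2, Pi.smul_apply, smul_eq_mul, abs_mul, abs_mul, abs_of_nonneg hC0]
      have := hC ω
      gcongr
    rwa [norm_smul, Real.norm_of_nonneg hC0] at h1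
  set M : (Ω → ℝ) → (E →L[ℝ] E) := fun φ => if hφ : Bd φ then
    LinearMap.mkContinuous ⟨⟨F φ hφ, hadd φ hφ⟩, hsmul φ hφ⟩ hφ.exists_bound.choose
      (hnorm φ hφ _ hφ.exists_bound.choose_spec.2 hφ.exists_bound.choose_spec.1) else 0 with hM
  have hMF : ∀ (φ : Ω → ℝ) (hφ : Bd φ) (x : E), M φ x = F φ hφ x := by
    intro φ hφ x
    simp only [hM, hφ, dif_pos]
    rfl
  have hMae : ∀ φ, Bd φ → ∀ x, ∀ᵐ ω ∂m, ι (M φ x) ω = φ ω * ι x ω := by
    intro φ hφ x
    rw [hMF φ hφ]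
    exact hF φ hφ x
  refine ⟨⟨M, ?_, ?_, ?_, ?_, ?_, ?_⟩, hMae⟩
  · ext x
    refine eq_of_ae ι hinj ?_
    filter_upwards [hMae 1 Bd.one x] with ω h1
    rw [h1, Pi.one_apply, one_mul]
    rfl
  · intro φ ψ hφ hψ
    ext x
    refine eq_of_ae ι hinj ?_
    rw [add_apply]
    filter_upwards [hMae _ (hφ.add hψ) x, hMae _ hφ x, hMae _ hψ x,
      AEEqFun.coeFn_add (ι (M φ x)) (ι (M ψ x))] with ω h1 h2 h3 h4
    rw [h1, map_add, h4, Pi.add_apply, Pi.add_apply, h2, h3]
    ring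
  · intro φ ψ hφ hψ
    ext x
    refine eq_of_ae ι hinj ?_
    show ∀ᵐ ω ∂m, ι (M (φ * ψ) x) ω = ι (M φ (M ψ x)) ω
    filter_upwards [hMae _ (hφ.mul hψ) x, hMae _ hφ (M ψ x), hMae _ hψ x] with ω h1 h2 h3
    rw [h1, h2, h3, Pi.mul_apply]
    ring
  · intro c φ hφ
    ext x
    refine eq_of_ae ι hinj ?_
    show ∀ᵐ ω ∂m, ι (M (c • φ) x) ω = ι (c • M φ x) ω
    filter_upwards [hMae _ (hφ.smul c) x, hMae _ hφ x, AEEqFun.coeFn_smul c (ι (M φ x))] with
      ω h1 h2 h3
    rw [h1, map_smul, h3, Pi.smul_apply, Pi.smul_apply, h2, smul_eq_mul, smul_eq_mul]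
    ring
  · intro φ ψ x hφ hψ h
    refine norm_le_of_ae ι hinj hsol ?_
    filter_upwards [hMae _ hφ x, hMae _ hψ x] with ω h1 h2
    rw [h1, h2, abs_mul, abs_mul]
    have := h ω
    gcongr
  · intro c z hc hcov h
    refine eq_of_ae ι hinj ?_
    have h1 : ∀ᵐ ω ∂m, ∀ n, (c n).indicator (1 : Ω → ℝ) ω * ι z ω = 0 := by
      rw [ae_all_iff]
      intro n
      filter_upwards [hMae _ (Bd.ind (hc n)) z, AEEqFun.coeFn_zero (μ := m) (β := ℝ)] with ω h1 h2
      rw [← h1, h n, map_zero, h2]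
      rfl
    filter_upwards [h1, AEEqFun.coeFn_zero (μ := m) (β := ℝ)] with ω h2 h3
    obtain ⟨n, hn⟩ := hcov ω
    have h4 := h2 n
    rw [indicator_of_mem hn, Pi.one_apply, one_mul] at h4
    rw [h4, map_zero, h3]
    rfl

theorem exists_mult [CompleteSpace E] [TopologicalSpace.SeparableSpace E] :
    Nonempty (Mult Ω E) := by
  obtain ⟨D, hD⟩ := exists_pre ι hinj hsol
  have hmeas : ∀ x : E, Measurable (ι x : Ω → ℝ) := fun x => (ι x).measurable
  set x : ℕ → E := TopologicalSpace.denseSeq E with hx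
  have hxd : DenseRange x := TopologicalSpace.denseRange_denseSeq E
  -- disjoint supports
  set s : ℕ → Set Ω := fun n => {ω | ι (x n) ω ≠ 0} with hs
  have hsm : ∀ n, MeasurableSet (s n) := fun n =>
    (measurableSet_eq_fun (hmeas _) measurable_const).compl
  set e : ℕ → Set Ω := disjointed s with he
  have hem : ∀ n, MeasurableSet (e n) := fun n => MeasurableSet.disjointed hsm n
  have hed : Pairwise (Function.onFun Disjoint e) := disjoint_disjointed s
  have hes : ∀ n, e n ⊆ s n := disjointed_subset s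
  have heU : ⋃ n, e n = ⋃ n, s n := iUnion_disjointed
  set c : ℕ → ℝ := fun n => (1 / 2) ^ n / (1 + ‖x n‖) with hc
  have hc0 : ∀ n, 0 < c n := fun n => by simp only [hc]; positivity
  set v : ℕ → E := fun n => c n • D.M ((e n).indicator 1) (x n) with hv
  have hvs : Summable v := by
    refine Summable.of_norm_bounded (g := fun n : ℕ => (1 / 2 : ℝ) ^ n)
      (summable_geometric_of_lt_one (by norm_num) (by norm_num)) (fun n => ?_)
    simp only [hv, hc]
    rw [norm_smul, Real.norm_of_nonneg (by positivity)]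
    have h1 := D.ind_le (hem n) (x n)
    rw [div_mul_eq_mul_div, div_le_iff₀ (by positivity)]
    have h2 : 0 ≤ ((1 : ℝ) / 2) ^ n := by positivity
    have h3 : ‖D.M ((e n).indicator 1) (x n)‖ ≤ 1 + ‖x n‖ := by linarith
    gcongr
  set u : E := ∑' n, v n with hu
  have hPu : ∀ k, D.M ((e k).indicator 1) u = v k := by
    intro k
    rw [hu, (D.M ((e k).indicator 1)).map_tsum hvs, tsum_eq_single k]
    · simp only [hv]
      rw [map_smul, D.ind_mul (hem k) (hem k), inter_self]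
    · intro n hn
      simp only [hv]
      rw [map_smul, D.ind_mul (hem k) (hem n), (hed hn.symm).inter_eq, D.ind_empty, smul_zero]
  -- `u` is a weak unit
  set b0 : Set Ω := {ω | ι u ω = 0} with hb0
  have hb0m : MeasurableSet b0 := measurableSet_eq_fun (hmeas _) measurable_const
  have hnull : ∀ k, ∀ᵐ ω ∂m, ω ∈ b0 → ω ∉ e k := by
    intro k
    have h1 := hPu k
    have h2 := hD _ (Bd.ind (hem k)) u
    rw [h1] at h2
    simp only [hv] at h2
    filter_upwards [h2, AEEqFun.coeFn_smul (c k) (ι (D.M ((e k).indicator 1) (x k))),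
      hD _ (Bd.ind (hem k)) (x k)] with ω h3 h4 h5 h6 h7
    rw [map_smul, h4, Pi.smul_apply, h5, indicator_of_mem h7, Pi.one_apply, one_mul, one_mul,
      smul_eq_mul] at h3
    have h8 : ι u ω = 0 := h6
    rw [h8] at h3
    rcases mul_eq_zero.1 h3 with h9 | h9
    · exact (hc0 k).ne' h9
    · exact hes k h7 h9
  have hnull2 : ∀ᵐ ω ∂m, ω ∈ b0 → ∀ n, ι (x n) ω = 0 := by
    have h1 : ∀ᵐ ω ∂m, ∀ k, ω ∈ b0 → ω ∉ e k := ae_all_iff.2 hnull
    filter_upwards [h1] with ω h2 h3 n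
    by_contra h4
    have h5 : ω ∈ ⋃ n, s n := mem_iUnion.2 ⟨n, h4⟩
    rw [← heU] at h5
    obtain ⟨k, hk⟩ := mem_iUnion.1 h5
    exact h2 k h3 hk
  have hPb0 : ∀ z : E, D.M (b0.indicator 1) z = 0 := by
    intro z
    have hcl : IsClosed {z : E | D.M (b0.indicator 1) z = 0} :=
      isClosed_eq (D.M _).continuous continuous_const
    have hr : Set.range x ⊆ {z : E | D.M (b0.indicator 1) z = 0} := by
      rintro _ ⟨n, rfl⟩
      refine eq_of_ae ι hinj ?_
      filter_upwards [hD _ (Bd.ind hb0m) (x n), hnull2,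
        AEEqFun.coeFn_zero (μ := m) (β := ℝ)] with ω h1 h2 h3
      rw [h1, map_zero, h3]
      by_cases h4 : ω ∈ b0
      · rw [h2 h4 n, mul_zero]; rfl
      · rw [indicator_of_notMem h4, zero_mul]; rfl
    have := (hxd.closure_eq ▸ closure_minimal hr hcl : (univ : Set E) ⊆ _)
    exact this (mem_univ z)
  refine ⟨⟨D.M, D.one, D.add, D.mul, D.smul, D.mono, fun φ C x h1 h2 h3 => D.dom φ C x h1 h2 h3,
    u, fun z => ?_⟩⟩
  refine ⟨fun ω => ι z ω / ι u ω, (hmeas z).div (hmeas u), fun n => ?_⟩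
  have hrm : Measurable (fun ω => ι z ω / ι u ω) := (hmeas z).div (hmeas u)
  have hmn : MeasurableSet {ω | |ι z ω / ι u ω| ≤ (n : ℝ)} :=
    measurableSet_le hrm.abs measurable_const
  have hz0 := hPb0 z
  refine eq_of_ae ι hinj ?_
  have h0 := hD _ (Bd.ind hb0m) z
  rw [hz0, map_zero] at h0
  filter_upwards [hD _ (Mult.bd_trunc hrm n) u, hD _ (Bd.ind hmn) z, h0,
    AEEqFun.coeFn_zero (μ := m) (β := ℝ)] with ω h1 h2 h3 h4
  rw [h1, h2]
  by_cases h5 : ω ∈ {ω | |ι z ω / ι u ω| ≤ (n : ℝ)}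
  · rw [indicator_of_mem h5, indicator_of_mem h5, Pi.one_apply, one_mul]
    by_cases h6 : ι u ω = 0
    · have h7 : ω ∈ b0 := h6
      rw [indicator_of_mem h7, Pi.one_apply, one_mul, h4] at h3
      rw [h6, mul_zero, ← h3]
      rfl
    · exact div_mul_cancel₀ _ h6
  · rw [indicator_of_notMem h5, indicator_of_notMem h5, zero_mul, zero_mul]

end FS

end Pool.Q193.BF
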