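import Mathlib
import Pool.Agent.Q193.BF.Mult

/-!
# Skew operators and multiplications

Off-diagonal blocks of skew operators are skew, band preserving skew operators vanish, and the
skew operators act irreducibly with respect to the band projections when the isometries act
transitively.
-/

set_option autoImplicit false

namespace Pool.Q193.BF

open Filter Topology MeasureTheory Set

variable {Ω : Type*} [MeasurableSpace Ω]
variable {E : Type*} [NormedAddCommGroup E] [NormedSpace ℝ E] (D : Mult Ω E)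

namespace Mult

/-- off-diagonal block -/
noncomputable def blk (A : E →L[ℝ] E) (b c : Set Ω) : E →L[ℝ] E :=
  (D.P b).comp (A.comp (D.P c)) + (D.P c).comp (A.comp (D.P b))

theorem blk_apply (A : E →L[ℝ] E) (b c : Set Ω) (x : E) :
    D.blk A b c x = D.P b (A (D.P c x)) + D.P c (A (D.P b x)) := rfl

theorem sk_blk {A : E →L[ℝ] E} (hA : Sk A) {b c : Set Ω} (hb : MeasurableSet b)
    (hc : MeasurableSet c) (hbc : Disjoint b c) : Sk (D.blk A b c) := by
  set B1 : E →L[ℝ] E := (1 / 2 : ℝ) • (A - cj (D.R b hb) A) with hB1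
  have h1 : Sk B1 := (hA.sub (hA.cj _)).smul _
  have e1 : ∀ x, B1 x = A (D.P b x) + D.P b (A x) - (2 : ℝ) • D.P b (A (D.P b x)) := by
    intro x
    show (1 / 2 : ℝ) • (A x - D.R b hb (A ((D.R b hb).symm x))) = _
    rw [D.R_symm_apply, D.R_apply]
    simp only [map_sub, map_smul]
    module
  set B2 : E →L[ℝ] E := (1 / 2 : ℝ) • (B1 - cj (D.R c hc) B1) with hB2
  have h2 : Sk B2 := (h1.sub (h1.cj _)).smul _
  have e2 : ∀ x, B2 x = B1 (D.P c x) + D.P c (B1 x) - (2 : ℝ) • D.P c (B1 (D.P c x)) := by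
    intro x
    show (1 / 2 : ℝ) • (B1 x - D.R c hc (B1 ((D.R c hc).symm x))) = _
    rw [D.R_symm_apply, D.R_apply]
    simp only [map_sub, map_smul]
    module
  refine h2.congr (fun x => ?_)
  rw [e2, e1, e1, D.P_disj hb hc hbc, map_zero, map_zero, smul_zero, zero_add, sub_zero,
    D.P_disj hc hb hbc.symm, smul_zero, sub_zero, map_sub, map_add, map_smul,
    D.P_disj hc hb hbc.symm, D.P_disj hc hb hbc.symm, smul_zero, sub_zero, add_zero]
  rfl

/-- positivity of support functionals -/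
theorem spt_nonneg {x : E} {f : E →L[ℝ] ℝ} (h : Spt x f) {φ : Ω → ℝ} (hφ : Bd φ)
    (h0 : ∀ ω, 0 ≤ φ ω) : 0 ≤ f (D.M φ x) := by
  obtain ⟨C, hC0, hC⟩ := hφ.exists_bound
  have ht : 0 < 1 / (C + 1) := by positivity
  refine h.nonneg ht ?_
  rw [← D.smulE (χ := (1 / (C + 1)) • φ) hφ (1 / (C + 1)) (fun ω => rfl)]
  have h1 : D.M (1 - (1 / (C + 1)) • φ) x = x - D.M ((1 / (C + 1)) • φ) x := by
    rw [D.M_sub Bd.one (hφ.smul (1 / (C + 1))), D.one_apply]
  rw [← h1]
  have h2 := D.norm_le (φ := 1 - (1 / (C + 1)) • φ) (Bd.one.sub (hφ.smul _)) zero_le_one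
    (fun ω => ?_) x
  · rwa [one_mul] at h2
  · rw [Pi.sub_apply, Pi.one_apply, Pi.smul_apply, smul_eq_mul]
    have h3 := h0 ω
    have h4 : φ ω ≤ C := (le_abs_self _).trans (hC ω)
    have h5 : 0 ≤ 1 / (C + 1) * φ ω := by positivity
    have h6 : 1 / (C + 1) * φ ω ≤ 1 := by
      rw [one_div, inv_mul_le_iff₀ (by positivity)]
      linarith
    rw [abs_le]
    constructor <;> linarith

/-- the antisymmetry of the off-diagonal kernel of a skew operator -/
theorem antisymm {A : E →L[ℝ] E} (hA : Sk A) {x : E} {f : E →L[ℝ] ℝ} (h : Spt x f)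
    {φ ψ : Ω → ℝ} (hφ : Bd φ) (hψ : Bd ψ) (hd : ∀ ω, φ ω * ψ ω = 0) :
    f (D.M φ (A (D.M ψ x))) + f (D.M ψ (A (D.M φ x))) = 0 := by
  -- sets
  have h1 : ∀ b c : Set Ω, MeasurableSet b → MeasurableSet c → Disjoint b c →
      f (D.P b (A (D.P c x))) + f (D.P c (A (D.P b x))) = 0 := by
    intro b c hb hc hbc
    have := D.sk_blk hA hb hc hbc x f h
    rwa [D.blk_apply, map_add] at this
  -- a function and a set
  have h2 : ∀ c : Set Ω, MeasurableSet c → ∀ φ : Ω → ℝ, Bd φ → (∀ ω ∈ c, φ ω = 0) →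
      f (D.M φ (A (D.P c x))) + f (D.P c (A (D.M φ x))) = 0 := by
    intro c hc φ hφ h0
    have hl : Lin (fun φ : Ω → ℝ => f (D.M φ (A (D.P c x))) + f (D.P c (A (D.M φ x)))) :=
      ((D.lin (A (D.P c x))).clm f).add' ((D.lin x).clm (f.comp ((D.P c).comp A)))
    refine hl.zero_of cᶜ (fun b hb hbc => ?_) φ hφ (fun ω hω => h0 ω (not_not.1 hω))
    exact h1 b c hb hc (Set.disjoint_left.2 fun ω h3 h4 => hbc h3 h4)
  -- two functions
  have hl : Lin (fun ψ : Ω → ℝ => f (D.M φ (A (D.M ψ x))) + f (D.M ψ (A (D.M φ x)))) :=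
    ((D.lin x).clm (f.comp ((D.M φ).comp A))).add' ((D.lin (A (D.M φ x))).clm f)
  refine hl.zero_of {ω | φ ω = 0} (fun c hc hcZ => ?_) ψ hψ (fun ω hω => ?_)
  · exact h2 c hc φ hφ (fun ω hω => hcZ hω)
  · rcases mul_eq_zero.1 (hd ω) with h3 | h3
    · exact absurd h3 hω
    · exact h3

/-- band preserving skew operators vanish -/
theorem band_zero {A : E →L[ℝ] E} (hA : Sk A) {c : Set Ω} (hc : MeasurableSet c)
    (h : ∀ d : Set Ω, MeasurableSet d → d ⊆ c → ∀ x, D.P (c \ d) (A (D.P d x)) = 0) (x : E) :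
    D.P c (A (D.P c x)) = 0 := by
  have hcd : ∀ d : Set Ω, MeasurableSet d → d ⊆ c → ∀ x, D.P d (A (D.P (c \ d) x)) = 0 := by
    intro d hd hdc x
    have h1 := h (c \ d) (hc.diff hd) sdiff_subset x
    rwa [sdiff_sdiff_cancel_left hdc] at h1
  -- the diagonal
  have hdiag : ∀ d : Set Ω, MeasurableSet d → d ⊆ c → ∀ x,
      D.P d (A (D.P d x)) = D.P d (D.P c (A (D.P c x))) := by
    intro d hd hdc x
    rw [D.P_P hd hc, inter_eq_left.2 hdc, D.P_sub hd hc hdc x, map_add, map_add, hcd d hd hdc,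
      add_zero]
  set v : E := D.P c (A (D.P c D.u)) with hv
  obtain ⟨r, hr, hr1, hr2⟩ := D.exists_approx v
  have hmn : ∀ n : ℕ, MeasurableSet {ω | |r ω| ≤ (n : ℝ)} := fun n =>
    measurableSet_le hr.abs measurable_const
  -- key
  have key : ∀ (s δ : ℝ) (n : ℕ) (b : Set Ω), MeasurableSet b → b ⊆ c → 0 < δ →
      (∀ ω ∈ b, δ ≤ s * r ω ∧ |r ω| ≤ n) → D.P b D.u = 0 := by
    intro s δ n b hb hbc hδ hbr
    obtain ⟨f, hf⟩ := exists_spt (D.P b D.u)
    have hf' : Spt (D.P b D.u) (f.comp (D.P b)) :=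
      hf.comp _ (fun y => D.P_le hb y) (D.P_idem hb _)
    have h1 : f (D.P b (A (D.P b D.u))) = 0 := hA _ _ hf'
    have hbn : b ⊆ {ω | |r ω| ≤ (n : ℝ)} := fun ω hω => (hbr ω hω).2
    have h2 : D.P b v = D.M (b.indicator r) D.u := by
      have h3 : D.P b (D.P {ω | |r ω| ≤ (n : ℝ)} v) = D.P b v := by
        rw [D.P_P hb (hmn n), inter_eq_left.2 hbn]
      rw [← h3, ← hr1 n, D.P_M hb (bd_trunc hr n)]
      refine D.congr (fun ω => ?_) _
      by_cases hω : ω ∈ b
      · rw [indicator_of_mem hω, indicator_of_mem hω, indicator_of_mem (hbn hω)]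
      · rw [indicator_of_notMem hω, indicator_of_notMem hω]
    rw [hdiag b hb hbc, ← hv, h2] at h1
    have hbr' : Bd (b.indicator r) := by
      refine ⟨hr.indicator hb, n, fun ω => ?_⟩
      by_cases hω : ω ∈ b
      · rw [indicator_of_mem hω]; exact hbn hω
      · rw [indicator_of_notMem hω, abs_zero]; positivity
    set χ : Ω → ℝ := b.indicator (fun ω => s * r ω - δ) with hχ
    have hχb : ∀ ω, χ ω = (s • b.indicator r) ω - (δ • b.indicator (1 : Ω → ℝ)) ω := by
      intro ω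
      by_cases hω : ω ∈ b <;> simp [hχ, hω]
    have hχB : Bd χ := by
      have : χ = s • b.indicator r - δ • b.indicator (1 : Ω → ℝ) := funext hχb
      rw [this]
      exact (hbr'.smul s).sub ((Bd.ind hb).smul δ)
    have h4 := D.spt_nonneg hf hχB (fun ω => by
      by_cases hω : ω ∈ b
      · rw [hχ, indicator_of_mem hω]
        have := (hbr ω hω).1
        linarith
      · rw [hχ, indicator_of_notMem hω])
    rw [D.M_P hb hχB, D.congr (ψ := χ) (fun ω => by
      by_cases hω : ω ∈ b <;> simp [hχ, hω]),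
      D.subE (hbr'.smul s) ((Bd.ind hb).smul δ) hχb,
      D.M_smul hbr' s, D.M_smul (Bd.ind hb) δ, map_sub, map_smul,
      map_smul, h1, smul_zero, zero_sub, smul_eq_mul] at h4
    have h5 : f (D.M (b.indicator 1) D.u) = ‖D.P b D.u‖ := hf.2
    rw [h5] at h4
    have h6 : 0 ≤ ‖D.P b D.u‖ := norm_nonneg _
    have h7 : ‖D.P b D.u‖ = 0 := by
      by_contra h8
      have h9 : 0 < ‖D.P b D.u‖ := lt_of_le_of_ne h6 (Ne.symm h8)
      have : 0 < δ * ‖D.P b D.u‖ := by positivity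
      linarith
    exact norm_eq_zero.1 h7
  -- the set where `r` does not vanish
  set Z : Set Ω := {ω | ω ∈ c ∧ r ω ≠ 0} with hZ
  have hZm : MeasurableSet Z := hc.inter (measurableSet_eq_fun hr measurable_const).compl
  have hZ0 : D.P Z D.u = 0 := by
    set bp : ℕ → Set Ω := fun n => {ω | ω ∈ c ∧ 1 / ((n : ℝ) + 1) ≤ r ω ∧ r ω ≤ n} with hbp
    set bm : ℕ → Set Ω := fun n => {ω | ω ∈ c ∧ 1 / ((n : ℝ) + 1) ≤ - r ω ∧ -r ω ≤ n} with hbm
    have hbpm : ∀ n, MeasurableSet (bp n) := fun n =>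
      hc.inter ((measurableSet_le measurable_const hr).inter
        (measurableSet_le hr measurable_const))
    have hbmm : ∀ n, MeasurableSet (bm n) := fun n =>
      hc.inter ((measurableSet_le measurable_const hr.neg).inter
        (measurableSet_le hr.neg measurable_const))
    have hp0 : ∀ n, D.P (bp n) D.u = 0 := by
      intro n
      have hn : 0 < 1 / ((n : ℝ) + 1) := by positivity
      refine key 1 (1 / ((n : ℝ) + 1)) n (bp n) (hbpm n) (fun ω hω => hω.1) hn (fun ω hω => ?_)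
      obtain ⟨h1, h2, h3⟩ := hω
      rw [one_mul, abs_of_pos (by linarith)]
      exact ⟨h2, h3⟩
    have hm0 : ∀ n, D.P (bm n) D.u = 0 := by
      intro n
      have hn : 0 < 1 / ((n : ℝ) + 1) := by positivity
      refine key (-1) (1 / ((n : ℝ) + 1)) n (bm n) (hbmm n) (fun ω hω => hω.1) hn
        (fun ω hω => ?_)
      obtain ⟨h1, h2, h3⟩ := hω
      rw [neg_one_mul, abs_of_neg (by linarith)]
      exact ⟨h2, h3⟩
    have h1 := (D.lin D.u).cont (fun n => (bp n ∪ bm n).indicator (1 : Ω → ℝ))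
      (Z.indicator 1) 1 (fun n => measurable_one.indicator ((hbpm n).union (hbmm n)))
      (measurable_one.indicator hZm)
      (fun n ω => by by_cases h : ω ∈ bp n ∪ bm n <;> simp [h, indicator])
      (fun ω => by by_cases h : ω ∈ Z <;> simp [h, indicator]) (fun ω => by
        refine tendsto_const_nhds.congr' ?_
        by_cases hω : ω ∈ Z
        · obtain ⟨hωc, hω0⟩ := hω
          have h0 : 0 < |r ω| := abs_pos.2 hω0
          obtain ⟨N, hN⟩ := exists_nat_ge (max |r ω| (1 / |r ω|))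
          filter_upwards [eventually_ge_atTop N] with n hn
          have hn' : (N : ℝ) ≤ n := by exact_mod_cast hn
          have h1 : |r ω| ≤ n := (le_max_left _ _).trans (hN.trans hn')
          have h2 : 1 / |r ω| ≤ n := (le_max_right _ _).trans (hN.trans hn')
          have h3 : 1 / ((n : ℝ) + 1) ≤ |r ω| := by
            rw [div_le_iff₀ h0] at h2
            rw [div_le_iff₀ (by positivity)]
            nlinarith
          have h4 : ω ∈ bp n ∪ bm n := by
            rcases lt_or_gt_of_ne hω0 with h5 | h5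
            · right
              rw [abs_of_neg h5] at h1 h3
              exact ⟨hωc, h3, h1⟩
            · left
              rw [abs_of_pos h5] at h1 h3
              exact ⟨hωc, h3, h1⟩
          rw [indicator_of_mem h4, indicator_of_mem (show ω ∈ Z from ⟨hωc, hω0⟩)]
        · filter_upwards with n
          have h4 : ω ∉ bp n ∪ bm n := by
            have hn : 0 < 1 / ((n : ℝ) + 1) := by positivity
            rintro (⟨h1, h2, h3⟩ | ⟨h1, h2, h3⟩)
            · exact hω ⟨h1, by intro h0; rw [h0] at h2; linarith⟩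
            · exact hω ⟨h1, by intro h0; rw [h0] at h2; linarith⟩
          rw [indicator_of_notMem h4, indicator_of_notMem hω])
    refine tendsto_nhds_unique h1 (tendsto_const_nhds.congr (fun n => ?_))
    have hdis : Disjoint (bp n) (bm n) := by
      rw [Set.disjoint_left]
      rintro ω ⟨_, h2, _⟩ ⟨_, h3, _⟩
      have hn : 0 < 1 / ((n : ℝ) + 1) := by positivity
      linarith
    rw [D.addE (χ := (bp n ∪ bm n).indicator (1 : Ω → ℝ)) (Bd.ind (hbpm n)) (Bd.ind (hbmm n))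
      (fun ω => by
        by_cases h1 : ω ∈ bp n
        · have h2 : ω ∉ bm n := Set.disjoint_left.1 hdis h1
          simp [h1, h2]
        · by_cases h2 : ω ∈ bm n <;> simp [h1, h2])]
    have e1 : D.M ((bp n).indicator 1) D.u = 0 := hp0 n
    have e2 : D.M ((bm n).indicator 1) D.u = 0 := hm0 n
    rw [e1, e2, add_zero]
  have hZφ : ∀ φ : Ω → ℝ, Bd φ → (∀ ω, ω ∉ Z → φ ω = 0) → D.M φ D.u = 0 := by
    intro φ hφ h0
    have h1 : D.M φ (D.P Z D.u) = D.M φ D.u := by
      rw [D.M_P hZm hφ]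
      refine D.congr (fun ω => ?_) _
      by_cases hω : ω ∈ Z
      · rw [indicator_of_mem hω]
      · rw [indicator_of_notMem hω, h0 ω hω]
    rw [← h1, hZ0, map_zero]
  -- `v = 0`
  have hv0 : v = 0 := by
    have h1 : Tendsto (fun n : ℕ => D.P c (D.M ({ω | |r ω| ≤ n}.indicator r) D.u)) atTop
        (𝓝 (D.P c v)) := ((D.P c).continuous.tendsto _).comp hr2
    have h2 : D.P c v = v := by rw [hv, D.P_idem hc]
    rw [h2] at h1
    refine tendsto_nhds_unique h1 (tendsto_const_nhds.congr (fun n => ?_))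
    rw [D.P_M hc (bd_trunc hr n)]
    refine (hZφ _ ((bd_trunc hr n).indicator hc) (fun ω hω => ?_)).symm
    by_cases h3 : ω ∈ c
    · rw [indicator_of_mem h3]
      have h4 : r ω = 0 := by
        by_contra h5
        exact hω ⟨h3, h5⟩
      by_cases h5 : ω ∈ {ω | |r ω| ≤ (n : ℝ)}
      · rw [indicator_of_mem h5, h4]
      · rw [indicator_of_notMem h5]
    · rw [indicator_of_notMem h3]
  -- conclusion
  have hfin : ∀ φ : Ω → ℝ, Bd φ → D.P c (A (D.P c (D.M φ D.u))) = 0 := by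
    refine ((D.lin D.u).clm ((D.P c).comp (A.comp (D.P c)))).zero_all (fun b hb => ?_)
    show D.P c (A (D.P c (D.P b D.u))) = 0
    rw [D.P_P hc hb]
    have hd : MeasurableSet (c ∩ b) := hc.inter hb
    have h1 := D.P_sub hd hc inter_subset_left (A (D.P (c ∩ b) D.u))
    rw [h1, h _ hd inter_subset_left, add_zero, hdiag _ hd inter_subset_left, ← hv, hv0, map_zero]
  exact D.zero_of_u ((D.P c).comp (A.comp (D.P c))) hfin x

/-- a vanishing block has a vanishing transpose -/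
theorem swap {b : Set Ω} (hb : MeasurableSet b)
    (h : ∀ A : E →L[ℝ] E, Sk A → ∀ x, D.P b (A (D.P bᶜ x)) = 0) {A : E →L[ℝ] E} (hA : Sk A)
    (z : E) : D.P bᶜ (A (D.P b z)) = 0 := by
  set z1 : E := D.P b z with hz1
  set w : E := D.P bᶜ (A z1) with hw
  have hPz : D.P b z1 = z1 := D.P_idem hb z
  have hPw : D.P b w = 0 := D.P_disj hb hb.compl disjoint_compl_right _
  have h1 : ∀ s t : ℝ, ‖z1 + t • w‖ ≤ ‖z1 + s • w‖ := by
    intro s t
    obtain ⟨f, hf⟩ := exists_spt (z1 + t • w)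
    have h2 := D.sk_blk hA hb.compl hb disjoint_compl_left (z1 + t • w) f hf
    rw [D.blk_apply, h A hA, add_zero, map_add (D.P b), map_smul, hPw, smul_zero, add_zero, hPz,
      ← hw] at h2
    have h3 := hf.le (z1 + s • w)
    have h4 : f (z1 + s • w) = f (z1 + t • w) + (s - t) * f w := by
      rw [map_add, map_add, map_smul, map_smul, smul_eq_mul, smul_eq_mul]; ring
    rw [h4, h2, mul_zero, add_zero, hf.2] at h3
    exact h3
  by_contra hw0
  have hw1 : 0 < ‖w‖ := norm_pos_iff.2 hw0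
  obtain ⟨N, hN⟩ := exists_nat_gt (2 * ‖z1‖ / ‖w‖)
  have h2 := h1 0 N
  rw [zero_smul, add_zero] at h2
  have h3 : ‖(N : ℝ) • w‖ ≤ ‖z1 + (N : ℝ) • w‖ + ‖z1‖ := by
    have := norm_sub_le (z1 + (N : ℝ) • w) z1
    rwa [add_sub_cancel_left] at this
  rw [norm_smul, Real.norm_of_nonneg (by positivity)] at h3
  rw [div_lt_iff₀ hw1] at hN
  linarith

theorem diag_zero [CompleteSpace E] [TopologicalSpace.SeparableSpace E]
    (htr : ∀ x y : E, ‖x‖ = 1 → ‖y‖ = 1 → ∃ T : E ≃ₗᵢ[ℝ] E, T x = y)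
    {b : Set Ω} (hb : MeasurableSet b)
    (h : ∀ A : E →L[ℝ] E, Sk A → ∀ x, D.P bᶜ (A (D.P b x)) = 0) {x : E} (hx : D.P b x ≠ 0)
    {A : E →L[ℝ] E} (hA : Sk A) (z : E) : D.P bᶜ (A (D.P bᶜ z)) = 0 := by
  refine D.band_zero hA hb.compl (fun d hd hdb z => ?_) z
  have hc1 : MeasurableSet (bᶜ \ d) := hb.compl.diff hd
  have hdis : Disjoint (bᶜ \ d) d := disjoint_sdiff_left
  have hK := D.sk_blk hA hc1 hd hdis
  set K := D.blk A (bᶜ \ d) d with hKdef
  set x1 : E := ‖D.P b x‖⁻¹ • D.P b x with hx1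
  have hx0 : 0 < ‖D.P b x‖ := norm_pos_iff.2 hx
  have hx1n : ‖x1‖ = 1 := by
    rw [hx1, norm_smul, norm_inv, norm_norm, inv_mul_cancel₀ hx0.ne']
  have hbx1 : D.P b x1 = x1 := by rw [hx1, map_smul, D.P_idem hb]
  have hd1 : Disjoint d b := Set.disjoint_left.2 fun ω h1 h2 => hdb h1 h2
  have hd2 : Disjoint (bᶜ \ d) b := Set.disjoint_left.2 fun ω h1 h2 => h1.1 h2
  have hKx : K x1 = 0 := by
    rw [hKdef, D.blk_apply, ← hbx1, D.P_disj hd hb hd1, D.P_disj hc1 hb hd2, map_zero, map_zero,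
      map_zero, add_zero]
  have hPK : ∀ w, D.P bᶜ (K w) = 0 := by
    intro w
    by_contra h0
    have h1 : 0 < ‖D.P bᶜ (K w)‖ := norm_pos_iff.2 h0
    obtain ⟨B, hB, hBw⟩ := range_subset htr hK hx1n hKx w (half_pos h1)
    have h2 : D.P bᶜ (K w) = D.P bᶜ (K w - B x1) := by
      rw [map_sub, ← hbx1, h B hB, sub_zero]
    have h3 : ‖D.P bᶜ (K w)‖ ≤ ‖D.P bᶜ (K w)‖ / 2 := by
      conv_lhs => rw [h2]
      refine (D.P_le hb.compl _).trans ?_
      rw [norm_sub_rev]
      exact hBw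
    linarith
  have h3 := hPK (D.P d z)
  rw [hKdef, D.blk_apply, D.P_idem hd, D.P_disj hc1 hd hdis, map_zero, map_zero, add_zero,
    D.P_P hb.compl hc1, inter_eq_right.2 sdiff_subset] at h3
  exact h3

/-- irreducibility -/
theorem irred [CompleteSpace E] [TopologicalSpace.SeparableSpace E]
    (htr : ∀ x y : E, ‖x‖ = 1 → ‖y‖ = 1 → ∃ T : E ≃ₗᵢ[ℝ] E, T x = y)
    {A₀ : E →L[ℝ] E} (hA₀ : Sk A₀) (hne : A₀ ≠ 0) {b : Set Ω} (hb : MeasurableSet b)
    (h : ∀ A : E →L[ℝ] E, Sk A → ∀ x, D.P b (A (D.P bᶜ x)) = 0) :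
    (∀ x, D.P b x = 0) ∨ (∀ x, D.P bᶜ x = 0) := by
  by_contra hcon
  rw [not_or, not_forall, not_forall] at hcon
  obtain ⟨⟨x, hx⟩, ⟨y, hy⟩⟩ := hcon
  have h' : ∀ A : E →L[ℝ] E, Sk A → ∀ x, D.P bᶜ (A (D.P b x)) = 0 :=
    fun A hA x => D.swap hb h hA x
  have h1 := fun z => D.diag_zero htr hb h' hx hA₀ z
  have h2 := fun z => D.diag_zero htr hb.compl (by rw [compl_compl]; exact h) hy hA₀ z
  rw [compl_compl] at h2
  apply hne
  ext z
  rw [zero_apply, ← D.P_compl hb (A₀ z), ← D.P_compl hb z, map_add, map_add, map_add,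
    h1, h2, h A₀ hA₀, h' A₀ hA₀, add_zero, add_zero]

end Mult

end Pool.Q193.BF
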