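import Mathlib
import Pool.Agent.Q193.BF.Rel

/-!
# Strict positivity of the support functionals of the cyclic vector
-/

set_option autoImplicit false

namespace Pool.Q193.BF

open Filter Topology MeasureTheory Set

variable {Ω : Type*} [MeasurableSpace Ω]

theorem Bd.integrable {μ : Measure Ω} [IsFiniteMeasure μ] {φ : Ω → ℝ} (h : Bd φ) :
    Integrable φ μ := by
  obtain ⟨C, hC0, hC⟩ := h.exists_bound
  refine Integrable.of_bound h.1.aestronglyMeasurable C (Eventually.of_forall fun ω => ?_)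
  rw [Real.norm_eq_abs]
  exact hC ω

theorem lin_integral (μ : Measure Ω) [IsFiniteMeasure μ] : Lin (fun φ : Ω → ℝ => ∫ ω, φ ω ∂μ) := by
  refine ⟨fun φ ψ hφ hψ => ?_, fun c φ hφ => ?_, fun φ ψ C h1 h2 h3 h4 h5 => ?_⟩
  · exact integral_add hφ.integrable hψ.integrable
  · exact integral_const_mul c φ
  · refine tendsto_integral_of_dominated_convergence (fun _ => C)
      (fun n => (h1 n).aestronglyMeasurable) (integrable_const _)
      (fun n => Eventually.of_forall fun ω => ?_) (Eventually.of_forall h5)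
    rw [Real.norm_eq_abs]
    exact h3 n ω

/-- a positive `Lin` functional is given by a finite measure -/
theorem Lin.exists_measure {Λ : (Ω → ℝ) → ℝ} (h : Lin Λ)
    (h0 : ∀ b : Set Ω, MeasurableSet b → 0 ≤ Λ (b.indicator (1 : Ω → ℝ))) :
    ∃ μ : Measure Ω, IsFiniteMeasure μ ∧
      (∀ b : Set Ω, MeasurableSet b → μ b = ENNReal.ofReal (Λ (b.indicator (1 : Ω → ℝ)))) ∧
      ∀ φ : Ω → ℝ, Bd φ → ∫ ω, φ ω ∂μ = Λ φ := by
  have hempty : Λ ((∅ : Set Ω).indicator (1 : Ω → ℝ)) = 0 := by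
    have e : (∅ : Set Ω).indicator (1 : Ω → ℝ) = (0 : ℝ) • (1 : Ω → ℝ) := by
      ext ω; simp
    rw [e, h.smul 0 1 Bd.one, zero_smul]
  have hunion : ∀ g : ℕ → Set Ω, (∀ i, MeasurableSet (g i)) → Pairwise (Function.onFun Disjoint g) →
      HasSum (fun i => Λ ((g i).indicator (1 : Ω → ℝ))) (Λ ((⋃ i, g i).indicator (1 : Ω → ℝ))) := by
    intro g hg hd
    rw [hasSum_iff_tendsto_nat_of_nonneg (fun i => h0 _ (hg i))]
    have hm : ∀ n : ℕ, MeasurableSet (⋃ i ∈ Finset.range n, g i) := fun n =>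
      Finset.measurableSet_biUnion _ (fun i _ => hg i)
    have e1 : ∀ n : ℕ, ∑ i ∈ Finset.range n, Λ ((g i).indicator (1 : Ω → ℝ)) =
        Λ ((⋃ i ∈ Finset.range n, g i).indicator (1 : Ω → ℝ)) := by
      intro n
      induction n with
      | zero =>
        rw [Finset.sum_range_zero, ← hempty]
        congr 1
        ext ω
        simp
      | succ n ih =>
        rw [Finset.sum_range_succ, ih, ← h.add _ _ (Bd.ind (hm n)) (Bd.ind (hg n))]
        congr 1
        ext ω
        rw [Pi.add_apply]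
        have hdis : ω ∈ g n → ω ∉ ⋃ i ∈ Finset.range n, g i := by
          intro h1 h2
          simp only [mem_iUnion, Finset.mem_range] at h2
          obtain ⟨i, hi, h3⟩ := h2
          exact Set.disjoint_left.1 (hd (ne_of_lt hi)) h3 h1
        by_cases h1 : ω ∈ g n
        · have h2 := hdis h1
          have h3 : ω ∈ ⋃ i ∈ Finset.range (n + 1), g i := by
            simp only [mem_iUnion, Finset.mem_range]
            exact ⟨n, Nat.lt_succ_self n, h1⟩
          rw [indicator_of_mem h1, indicator_of_notMem h2, indicator_of_mem h3, zero_add]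
        · rw [indicator_of_notMem h1, add_zero]
          by_cases h2 : ω ∈ ⋃ i ∈ Finset.range n, g i
          · have h3 : ω ∈ ⋃ i ∈ Finset.range (n + 1), g i := by
              simp only [mem_iUnion, Finset.mem_range] at h2 ⊢
              obtain ⟨i, hi, h4⟩ := h2
              exact ⟨i, by omega, h4⟩
            rw [indicator_of_mem h2, indicator_of_mem h3]
          · have h3 : ω ∉ ⋃ i ∈ Finset.range (n + 1), g i := by
              simp only [mem_iUnion, Finset.mem_range, not_exists] at h2 ⊢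
              intro i hi h4
              rcases Nat.lt_succ_iff_lt_or_eq.1 hi with h5 | h5
              · exact h2 i h5 h4
              · rw [h5] at h4; exact h1 h4
            rw [indicator_of_notMem h2, indicator_of_notMem h3]
    simp only [e1]
    refine h.cont _ _ 1 (fun n => measurable_one.indicator (hm n))
      (measurable_one.indicator (MeasurableSet.iUnion hg))
      (fun n ω => abs_ind_le _ ω) (fun ω => abs_ind_le _ ω) (fun ω => ?_)
    refine tendsto_const_nhds.congr' ?_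
    by_cases hω : ω ∈ ⋃ i, g i
    · obtain ⟨k, hk⟩ := mem_iUnion.1 hω
      filter_upwards [eventually_gt_atTop k] with n hn
      have h3 : ω ∈ ⋃ i ∈ Finset.range n, g i := by
        simp only [mem_iUnion, Finset.mem_range]
        exact ⟨k, hn, hk⟩
      rw [indicator_of_mem hω, indicator_of_mem h3]
    · filter_upwards with n
      have h3 : ω ∉ ⋃ i ∈ Finset.range n, g i := by
        intro h4
        simp only [mem_iUnion, Finset.mem_range] at h4
        obtain ⟨i, -, hi⟩ := h4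
        exact hω (mem_iUnion.2 ⟨i, hi⟩)
      rw [indicator_of_notMem hω, indicator_of_notMem h3]
  set μ : Measure Ω := Measure.ofMeasurable
    (fun b _ => ENNReal.ofReal (Λ (b.indicator (1 : Ω → ℝ)))) (by rw [hempty, ENNReal.ofReal_zero])
    (fun g hg hd => by
      have h1 := hunion g hg hd
      rw [← h1.tsum_eq, ENNReal.ofReal_tsum_of_nonneg (fun i => h0 _ (hg i)) h1.summable]) with hμ
  have hμb : ∀ b : Set Ω, MeasurableSet b →
      μ b = ENNReal.ofReal (Λ (b.indicator (1 : Ω → ℝ))) := fun b hb =>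
    Measure.ofMeasurable_apply b hb
  have hfin : IsFiniteMeasure μ := ⟨by
    rw [hμb _ MeasurableSet.univ]
    exact ENNReal.ofReal_lt_top⟩
  refine ⟨μ, hfin, hμb, fun φ hφ => ?_⟩
  have h1 := ((lin_integral μ).sub' h).zero_all (fun b hb => ?_) φ hφ
  · exact sub_eq_zero.1 h1
  · show ∫ ω, b.indicator (1 : Ω → ℝ) ω ∂μ - Λ _ = 0
    rw [integral_indicator_one hb, Measure.real, hμb b hb, ENNReal.toReal_ofReal (h0 b hb), sub_self]

variable {E : Type*} [NormedAddCommGroup E] [NormedSpace ℝ E] (D : Mult Ω E)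

namespace Mult

/-- the measure of a support functional at the cyclic vector -/
theorem exists_measure {f : E →L[ℝ] ℝ} (hf : Spt D.u f) :
    ∃ μ : Measure Ω, IsFiniteMeasure μ ∧
      (∀ b : Set Ω, MeasurableSet b → μ b = ENNReal.ofReal (f (D.P b D.u))) ∧
      ∀ φ : Ω → ℝ, Bd φ → ∫ ω, φ ω ∂μ = f (D.M φ D.u) :=
  ((D.lin D.u).clm f).exists_measure (fun _ hb => D.spt_nonneg hf (Bd.ind hb)
    (fun _ => indicator_nonneg (fun _ _ => zero_le_one) _))

/-- if `f` is strictly positive on `b0` and kills all `M φ z`, `φ` supported in `b0`, then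
`P b0 z = 0`. -/
theorem faithful {f : E →L[ℝ] ℝ} {μ : Measure Ω} [IsFiniteMeasure μ]
    (hμ : ∀ φ : Ω → ℝ, Bd φ → ∫ ω, φ ω ∂μ = f (D.M φ D.u)) {b0 : Set Ω} (hb0 : MeasurableSet b0)
    (hs : ∀ b : Set Ω, MeasurableSet b → b ⊆ b0 → μ b = 0 → D.P b D.u = 0) {z : E}
    (hz : ∀ φ : Ω → ℝ, Bd φ → (∀ ω, ω ∉ b0 → φ ω = 0) → f (D.M φ z) = 0) : D.P b0 z = 0 := by
  obtain ⟨r, hr, hr1, hr2⟩ := D.exists_approx z
  have hmn : ∀ n : ℕ, MeasurableSet {ω | |r ω| ≤ (n : ℝ)} := fun n =>
    measurableSet_le hr.abs measurable_const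
  have h1 : Tendsto (fun n : ℕ => D.P b0 (D.M ({ω | |r ω| ≤ n}.indicator r) D.u)) atTop
      (𝓝 (D.P b0 z)) := ((D.P b0).continuous.tendsto _).comp hr2
  refine tendsto_nhds_unique h1 (tendsto_const_nhds.congr (fun n => ?_))
  rw [D.P_M hb0 (bd_trunc hr n)]
  -- the sign
  set sg : Ω → ℝ := fun ω => if 0 ≤ r ω then 1 else -1 with hsg
  have hsgm : Measurable sg := Measurable.ite (measurableSet_le measurable_const hr)
    measurable_const measurable_const
  have hsgB : Bd sg := ⟨hsgm, 1, fun ω => by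
    by_cases h : 0 ≤ r ω <;> simp [hsg, h]⟩
  have hsr : ∀ ω, sg ω * r ω = |r ω| := by
    intro ω
    by_cases h : 0 ≤ r ω
    · simp [hsg, h, abs_of_nonneg h]
    · simp only [hsg, h, if_false]
      rw [abs_of_neg (not_le.1 h)]; ring
  set χ : Ω → ℝ := b0.indicator ({ω | |r ω| ≤ (n : ℝ)}.indicator sg) with hχ
  have hχB : Bd χ := (hsgB.indicator (hmn n)).indicator hb0
  have h2 := hz χ hχB (fun ω hω => indicator_of_notMem hω _)
  have h3 : D.M χ z = D.M (b0.indicator ({ω | |r ω| ≤ (n : ℝ)}.indicator (fun ω => |r ω|))) D.u := by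
    have e1 : D.M χ z = D.M χ (D.P {ω | |r ω| ≤ (n : ℝ)} z) := by
      rw [D.M_P (hmn n) hχB]
      refine D.congr (fun ω => ?_) _
      by_cases h4 : ω ∈ {ω | |r ω| ≤ (n : ℝ)}
      · rw [indicator_of_mem h4]
      · rw [indicator_of_notMem h4, hχ]
        by_cases h5 : ω ∈ b0
        · rw [indicator_of_mem h5, indicator_of_notMem h4]
        · rw [indicator_of_notMem h5]
    rw [e1, ← hr1 n]
    refine D.mulE hχB (bd_trunc hr n) (fun ω => ?_) _
    by_cases h5 : ω ∈ b0
    · rw [indicator_of_mem h5, hχ, indicator_of_mem h5]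
      by_cases h4 : ω ∈ {ω | |r ω| ≤ (n : ℝ)}
      · rw [indicator_of_mem h4, indicator_of_mem h4, indicator_of_mem h4, hsr]
      · rw [indicator_of_notMem h4, indicator_of_notMem h4, zero_mul]
    · rw [indicator_of_notMem h5, hχ, indicator_of_notMem h5, zero_mul]
  have habs : Bd (b0.indicator ({ω | |r ω| ≤ (n : ℝ)}.indicator (fun ω => |r ω|))) := by
    refine Bd.indicator ?_ hb0
    refine (bd_trunc hr n).of_le (hr.abs.indicator (hmn n)) (fun ω => ?_)
    by_cases h4 : ω ∈ {ω | |r ω| ≤ (n : ℝ)}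
    · rw [indicator_of_mem h4, indicator_of_mem h4, abs_abs]
    · rw [indicator_of_notMem h4, indicator_of_notMem h4]
  rw [h3, ← hμ _ habs] at h2
  have hnn : ∀ ω, 0 ≤ b0.indicator ({ω | |r ω| ≤ (n : ℝ)}.indicator (fun ω => |r ω|)) ω := by
    intro ω
    refine indicator_nonneg (fun ω _ => indicator_nonneg (fun ω _ => abs_nonneg _) _) _
  rw [integral_eq_zero_iff_of_nonneg hnn habs.integrable] at h2
  -- the support is null
  set b : Set Ω := {ω | ω ∈ b0 ∧ |r ω| ≤ n ∧ r ω ≠ 0} with hb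
  have hbm : MeasurableSet b := hb0.inter ((hmn n).inter
    (measurableSet_eq_fun hr measurable_const).compl)
  have hμb : μ b = 0 := by
    refine measure_mono_null (fun ω hω => ?_) h2
    obtain ⟨h4, h5, h6⟩ := hω
    intro h7
    have h8 : b0.indicator ({ω | |r ω| ≤ (n : ℝ)}.indicator (fun ω => |r ω|)) ω = 0 := h7
    rw [indicator_of_mem h4, indicator_of_mem (show ω ∈ {ω | |r ω| ≤ (n : ℝ)} from h5)] at h8
    exact abs_ne_zero.2 h6 h8
  have hPb := hs b hbm (fun ω hω => hω.1) hμb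
  have h4 : D.M (b0.indicator ({ω | |r ω| ≤ (n : ℝ)}.indicator r)) D.u =
      D.M (b0.indicator ({ω | |r ω| ≤ (n : ℝ)}.indicator r)) (D.P b D.u) := by
    rw [D.M_P hbm ((bd_trunc hr n).indicator hb0)]
    refine D.congr (fun ω => ?_) _
    by_cases h5 : ω ∈ b
    · rw [indicator_of_mem h5]
    · rw [indicator_of_notMem h5]
      by_cases h6 : ω ∈ b0
      · rw [indicator_of_mem h6]
        by_cases h7 : ω ∈ {ω | |r ω| ≤ (n : ℝ)}
        · rw [indicator_of_mem h7]
          by_contra h8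
          exact h5 ⟨h6, h7, h8⟩
        · rw [indicator_of_notMem h7]
      · rw [indicator_of_notMem h6]
  rw [h4, hPb, map_zero]

theorem u_ne_zero {A₀ : E →L[ℝ] E} (hne : A₀ ≠ 0) : D.u ≠ 0 := by
  intro h0
  apply hne
  ext z
  rw [zero_apply]
  exact D.zero_of_u A₀ (fun φ _ => by rw [h0, map_zero, map_zero]) z

theorem P_zero_of_u {b : Set Ω} (hb : MeasurableSet b) (h : D.P b D.u = 0) (x : E) :
    D.P b x = 0 := by
  refine D.zero_of_u (D.P b) (fun φ hφ => ?_) x
  show D.M _ (D.M φ D.u) = 0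
  rw [D.comm (Bd.ind hb) hφ]
  have : D.M (b.indicator 1) D.u = 0 := h
  rw [this, map_zero]

/-- strict positivity of the support functionals of the cyclic vector -/
theorem strict [CompleteSpace E] [TopologicalSpace.SeparableSpace E]
    (htr : ∀ x y : E, ‖x‖ = 1 → ‖y‖ = 1 → ∃ T : E ≃ₗᵢ[ℝ] E, T x = y)
    {A₀ : E →L[ℝ] E} (hA₀ : Sk A₀) (hne : A₀ ≠ 0) {f : E →L[ℝ] ℝ} (hf : Spt D.u f)
    {b : Set Ω} (hb : MeasurableSet b) (hfb : f (D.P b D.u) = 0) (x : E) : D.P b x = 0 := by
  obtain ⟨μ, hfin, hμ, hint⟩ := D.exists_measure hf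
  -- a maximal null set
  obtain ⟨e, he, hμe, hmax⟩ : ∃ e : Set Ω, MeasurableSet e ∧ μ e = 0 ∧
      ∀ b : Set Ω, MeasurableSet b → μ b = 0 → D.P (b \ e) D.u = 0 := by
    set S : Set E := {v | ∃ b : Set Ω, MeasurableSet b ∧ μ b = 0 ∧ v = D.P b D.u} with hS
    have : SecondCountableTopology E := UniformSpace.secondCountable_of_separable E
    have hSne : Nonempty S := ⟨⟨D.P ∅ D.u, ∅, MeasurableSet.empty, measure_empty, rfl⟩⟩
    set s : ℕ → S := TopologicalSpace.denseSeq S with hs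
    have hsd : DenseRange s := TopologicalSpace.denseRange_denseSeq S
    choose bb hbb1 hbb2 hbb3 using fun n => (s n).2
    refine ⟨⋃ n, bb n, MeasurableSet.iUnion hbb1, measure_iUnion_null hbb2, fun b hb hμb => ?_⟩
    by_contra h0
    have h1 : 0 < ‖D.P (b \ ⋃ n, bb n) D.u‖ := norm_pos_iff.2 h0
    have hbS : D.P b D.u ∈ S := ⟨b, hb, hμb, rfl⟩
    obtain ⟨n, hn⟩ := hsd.exists_dist_lt (⟨_, hbS⟩ : S) h1
    rw [Subtype.dist_eq, dist_eq_norm, hbb3 n] at hn
    have hm : MeasurableSet (b \ ⋃ n, bb n) := hb.diff (MeasurableSet.iUnion hbb1)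
    have h2 : D.P (b \ ⋃ n, bb n) D.u =
        D.P (b \ ⋃ n, bb n) (D.P b D.u - D.P (bb n) D.u) := by
      rw [map_sub, D.P_P hm hb, inter_eq_left.2 sdiff_subset, D.P_disj hm (hbb1 n), sub_zero]
      rw [Set.disjoint_left]
      intro ω h3 h4
      exact h3.2 (mem_iUnion.2 ⟨n, h4⟩)
    have h3 : ‖D.P (b \ ⋃ n, bb n) D.u‖ ≤ ‖D.P b D.u - D.P (bb n) D.u‖ := by
      conv_lhs => rw [h2]
      exact D.P_le hm _
    linarith
  -- `f` kills the band of `e`
  have hfe : ∀ ψ : Ω → ℝ, Bd ψ → (∀ ω, ω ∉ e → ψ ω = 0) → ∀ z, f (D.M ψ z) = 0 := by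
    intro ψ hψ hψe z
    refine D.zero_of_u (f.comp (D.M ψ)) (fun χ hχ => ?_) z
    show f (D.M ψ (D.M χ D.u)) = 0
    rw [D.mulE hψ hχ (χ := ψ * χ) (fun ω => rfl), ← hint _ (hψ.mul hχ)]
    refine integral_eq_zero_of_ae ?_
    have h1 : ∀ᵐ ω ∂μ, ω ∉ e := measure_eq_zero_iff_ae_notMem.1 hμe
    filter_upwards [h1] with ω hω
    rw [Pi.mul_apply, hψe ω hω, zero_mul]; rfl
  have hblock : ∀ A : E →L[ℝ] E, Sk A → ∀ x, D.P eᶜ (A (D.P (eᶜ)ᶜ x)) = 0 := by
    intro A hA x
    rw [compl_compl]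
    refine D.zero_of_u ((D.P eᶜ).comp (A.comp (D.P e))) (fun ψ hψ => ?_) x
    show D.P eᶜ (A (D.P e (D.M ψ D.u))) = 0
    rw [D.P_M he hψ]
    refine D.faithful hint he.compl (fun b hb hbe hμb => ?_) (fun φ hφ hφe => ?_)
    · have h1 := hmax b hb hμb
      rwa [show b \ e = b from by
        rw [sdiff_eq_left, Set.disjoint_left]
        intro ω h2 h3
        exact hbe h2 h3] at h1
    · have h1 := D.antisymm hA hf hφ (hψ.indicator he) (fun ω => by
        by_cases h2 : ω ∈ e
        · rw [hφe ω (not_not.2 h2), zero_mul]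
        · rw [indicator_of_notMem h2, mul_zero])
      rw [hfe _ (hψ.indicator he) (fun ω hω => indicator_of_notMem hω _), add_zero] at h1
      exact h1
  rcases D.irred htr hA₀ hne he.compl hblock with h1 | h1
  · exfalso
    have h2 := D.P_compl he D.u
    rw [h1, add_zero] at h2
    have h3 : f (D.P e D.u) = 0 := by
      have := hfe _ (Bd.ind he) (fun ω hω => indicator_of_notMem hω _) D.u
      exact this
    rw [h2, hf.2] at h3
    exact D.u_ne_zero hne (norm_eq_zero.1 h3)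
  · rw [compl_compl] at h1
    have hμb : μ b = 0 := by rw [hμ b hb, hfb, ENNReal.ofReal_zero]
    refine D.P_zero_of_u hb ?_ x
    have h2 := D.P_sub (hb.inter he) hb inter_subset_left D.u
    rw [h2, sdiff_self_inter, hmax b hb hμb, add_zero, ← D.P_P hb he, h1, map_zero]

end Mult

end Pool.Q193.BF
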