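import Mathlib
import Pool.Agent.Q193.BF.Pos

/-!
# The support functionals at the multiples of the cyclic vector
-/

set_option autoImplicit false

namespace Pool.Q193.BF

open Filter Topology MeasureTheory Set

variable {Ω : Type*} [MeasurableSpace Ω]

theorem Bd.inv {d : Ω → ℝ} (hd : Bd d) {δ : ℝ} (hδ : 0 < δ) (h : ∀ ω, δ ≤ d ω) :
    Bd (fun ω => (d ω)⁻¹) := by
  refine ⟨hd.1.inv, δ⁻¹, fun ω => ?_⟩
  have h1 : 0 < d ω := hδ.trans_le (h ω)
  rw [abs_of_pos (inv_pos.2 h1)]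
  exact inv_anti₀ hδ (h ω)

variable {E : Type*} [NormedAddCommGroup E] [NormedSpace ℝ E] (D : Mult Ω E)

namespace Mult

theorem exists_density {f g : E →L[ℝ] ℝ} {μ : Measure Ω} [IsFiniteMeasure μ]
    (hμ : ∀ φ : Ω → ℝ, Bd φ → ∫ ω, φ ω ∂μ = f (D.M φ D.u))
    (hs : ∀ b : Set Ω, MeasurableSet b → μ b = 0 → D.P b D.u = 0)
    {d : Ω → ℝ} (hd : Bd d) {δ : ℝ} (hδ : 0 < δ) (hdδ : ∀ ω, δ ≤ d ω)
    (hg : Spt (D.M d D.u) g) :
    ∃ w : Ω → ℝ, Measurable w ∧ (∀ ω, 0 ≤ w ω) ∧
      (∀ φ : Ω → ℝ, Bd φ → ∫ ω, w ω * φ ω ∂μ = g (D.M φ D.u)) ∧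
      ∀ φ : Ω → ℝ, Bd φ → Bd (w * φ) → ∀ z, g (D.M φ z) = f (D.M (w * φ) z) := by
  have hdi := hd.inv hδ hdδ
  have hpos : ∀ b : Set Ω, MeasurableSet b → 0 ≤ g (D.M (b.indicator (1 : Ω → ℝ)) D.u) := by
    intro b hb
    have h1 := D.spt_nonneg hg (hdi.indicator hb) (fun ω => indicator_nonneg (fun ω _ =>
      inv_nonneg.2 (hδ.le.trans (hdδ ω))) ω)
    rw [D.mulE (hdi.indicator hb) hd (χ := b.indicator (1 : Ω → ℝ)) (fun ω => by
      have h2 : d ω ≠ 0 := (hδ.trans_le (hdδ ω)).ne'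
      by_cases h : ω ∈ b
      · rw [indicator_of_mem h, indicator_of_mem h, Pi.one_apply, inv_mul_cancel₀ h2]
      · rw [indicator_of_notMem h, indicator_of_notMem h, zero_mul])] at h1
    exact h1
  obtain ⟨ν, hνf, hν, hνi⟩ := ((D.lin D.u).clm g).exists_measure hpos
  have hac : ν ≪ μ := by
    refine Measure.AbsolutelyContinuous.mk (fun b hb hμb => ?_)
    rw [hν b hb]
    have h1 : D.M (b.indicator (1 : Ω → ℝ)) D.u = 0 := hs b hb hμb
    rw [h1, map_zero, ENNReal.ofReal_zero]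
  have hint : ∀ φ : Ω → ℝ, Bd φ →
      ∫ ω, (ν.rnDeriv μ ω).toReal * φ ω ∂μ = g (D.M φ D.u) := by
    intro φ hφ
    rw [integral_toReal_rnDeriv_mul hac]
    exact hνi φ hφ
  refine ⟨fun ω => (ν.rnDeriv μ ω).toReal, (Measure.measurable_rnDeriv ν μ).ennreal_toReal,
    fun ω => ENNReal.toReal_nonneg, hint, fun φ hφ hwφ z => ?_⟩
  have h1 := D.zero_of_u (g.comp (D.M φ) - f.comp (D.M ((fun ω => (ν.rnDeriv μ ω).toReal) * φ)))
    (fun χ hχ => ?_) z
  · exact sub_eq_zero.1 h1
  · show g (D.M φ (D.M χ D.u)) - f (D.M _ (D.M χ D.u)) = 0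
    rw [D.mulE hφ hχ (χ := φ * χ) (fun ω => rfl), ← hint _ (hφ.mul hχ),
      D.mulE hwφ hχ (χ := ((fun ω => (ν.rnDeriv μ ω).toReal) * φ) * χ) (fun ω => rfl),
      ← hμ _ (hwφ.mul hχ), sub_eq_zero]
    refine integral_congr_ae (Eventually.of_forall fun ω => ?_)
    simp only [Pi.mul_apply]
    ring

/-- the iteration: the blocks between different levels of `w / d` vanish -/
theorem level_zero {f g : E →L[ℝ] ℝ} {μ : Measure Ω} [IsFiniteMeasure μ]
    (hf : Spt D.u f)
    (hμ : ∀ φ : Ω → ℝ, Bd φ → ∫ ω, φ ω ∂μ = f (D.M φ D.u))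
    (hs : ∀ b : Set Ω, MeasurableSet b → μ b = 0 → D.P b D.u = 0)
    {d : Ω → ℝ} (hd : Bd d) {δ : ℝ} (hδ : 0 < δ) (hdδ : ∀ ω, δ ≤ d ω)
    (hg : Spt (D.M d D.u) g) {w : Ω → ℝ} (hw : Measurable w) (hw0 : ∀ ω, 0 ≤ w ω)
    (hgw : ∀ φ : Ω → ℝ, Bd φ → Bd (w * φ) → ∀ z, g (D.M φ z) = f (D.M (w * φ) z))
    {A : E →L[ℝ] E} (hA : Sk A) {t t' : ℝ} (ht : 0 ≤ t) (htt : t < t') (n : ℕ) (x : E) :
    D.P {ω | t' * d ω ≤ w ω ∧ w ω ≤ n} (A (D.P {ω | w ω ≤ t * d ω} x)) = 0 := by
  have ht' : 0 < t' := ht.trans_lt htt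
  set b : Set Ω := {ω | t' * d ω ≤ w ω ∧ w ω ≤ n} with hb
  set c : Set Ω := {ω | w ω ≤ t * d ω} with hc
  have hbm : MeasurableSet b := (measurableSet_le (hd.1.const_mul t') hw).inter
    (measurableSet_le hw measurable_const)
  have hcm : MeasurableSet c := measurableSet_le hw (hd.1.const_mul t)
  have hd0 : ∀ ω, 0 < d ω := fun ω => hδ.trans_le (hdδ ω)
  have hwb : ∀ ω ∈ b, 0 < w ω := fun ω hω =>
    (mul_pos ht' (hd0 ω)).trans_le hω.1
  have hbc : ∀ ω, ω ∈ b → ω ∉ c := by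
    intro ω h1 h2
    have h3 : t' * d ω ≤ w ω := h1.1
    have h4 : w ω ≤ t * d ω := h2
    have h5 := mul_lt_mul_of_pos_right htt (hd0 ω)
    linarith
  -- the bilinear form vanishes
  have key : ∀ φ ψ : Ω → ℝ, Bd φ → Bd ψ → (∀ ω, ω ∉ b → φ ω = 0) → (∀ ω, ω ∉ c → ψ ω = 0) →
      f (D.M φ (A (D.M ψ D.u))) = 0 := by
    intro φ ψ hφ hψ hφb hψc
    obtain ⟨Cφ, hCφ0, hCφ⟩ := hφ.exists_bound
    obtain ⟨Cψ, hCψ0, hCψ⟩ := hψ.exists_bound
    set φk : ℕ → Ω → ℝ := fun k => b.indicator (fun ω => (d ω / w ω) ^ k * φ ω) with hφk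
    set ψk : ℕ → Ω → ℝ := fun k => c.indicator (fun ω => (w ω / d ω) ^ k * ψ ω) with hψk
    have hφkm : ∀ k, Measurable (φk k) := fun k =>
      (((hd.1.div hw).pow_const k).mul hφ.1).indicator hbm
    have hψkm : ∀ k, Measurable (ψk k) := fun k =>
      (((hw.div hd.1).pow_const k).mul hψ.1).indicator hcm
    have hφkb : ∀ k ω, |φk k ω| ≤ (1 / t') ^ k * Cφ := by
      intro k ω
      by_cases hω : ω ∈ b
      · simp only [hφk]
        rw [indicator_of_mem hω, abs_mul, abs_pow]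
        have h1 : |d ω / w ω| ≤ 1 / t' := by
          rw [abs_of_pos (div_pos (hd0 ω) (hwb ω hω)), div_le_div_iff₀ (hwb ω hω) ht']
          have := hω.1
          linarith
        have h2 := hCφ ω
        gcongr
      · simp only [hφk]
        rw [indicator_of_notMem hω, abs_zero]
        positivity
    have hψkb : ∀ k ω, |ψk k ω| ≤ t ^ k * Cψ := by
      intro k ω
      by_cases hω : ω ∈ c
      · simp only [hψk]
        rw [indicator_of_mem hω, abs_mul, abs_pow]
        have h1 : |w ω / d ω| ≤ t := by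
          rw [abs_of_nonneg (div_nonneg (hw0 ω) (hd0 ω).le), div_le_iff₀ (hd0 ω)]
          exact hω
        have h2 := hCψ ω
        gcongr
      · simp only [hψk]
        rw [indicator_of_notMem hω, abs_zero]
        positivity
    have hφkB : ∀ k, Bd (φk k) := fun k => ⟨hφkm k, _, hφkb k⟩
    have hψkB : ∀ k, Bd (ψk k) := fun k => ⟨hψkm k, _, hψkb k⟩
    -- the step
    have hstep : ∀ k, f (D.M (φk k) (A (D.M (ψk k) D.u))) =
        f (D.M (φk (k + 1)) (A (D.M (ψk (k + 1)) D.u))) := by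
      intro k
      set φ' : Ω → ℝ := b.indicator (fun ω => φk k ω / w ω) with hφ'
      set ψ' : Ω → ℝ := fun ω => (d ω)⁻¹ * ψk k ω with hψ'
      have hφ'm : Measurable φ' := ((hφkm k).div hw).indicator hbm
      have hφ'B : Bd φ' := by
        refine ⟨hφ'm, (1 / t') ^ k * Cφ / (t' * δ), fun ω => ?_⟩
        by_cases hω : ω ∈ b
        · rw [hφ', indicator_of_mem hω, abs_div, abs_of_pos (hwb ω hω)]
          have h1 : t' * δ ≤ w ω := by
            have h2 : t' * δ ≤ t' * d ω := by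
              have := hdδ ω
              gcongr
            exact h2.trans hω.1
          have h3 := hφkb k ω
          have h4 : 0 < t' * δ := by positivity
          gcongr
        · rw [hφ', indicator_of_notMem hω, abs_zero]
          positivity
      have hψ'B : Bd ψ' := (hd.inv hδ hdδ).mul (hψkB k)
      have hdis : ∀ ω, φ' ω * ψ' ω = 0 := by
        intro ω
        by_cases hω : ω ∈ b
        · have h1 : ψk k ω = 0 := indicator_of_notMem (hbc ω hω) _
          rw [hψ']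
          simp only [h1, mul_zero]
        · rw [hφ', indicator_of_notMem hω, zero_mul]
      have e1 : w * φ' = φk k := by
        ext ω
        rw [Pi.mul_apply]
        by_cases hω : ω ∈ b
        · have := (hwb ω hω).ne'
          rw [hφ', indicator_of_mem hω]
          field_simp
        · rw [hφ', indicator_of_notMem hω, mul_zero]
          simp only [hφk]
          rw [indicator_of_notMem hω]
      have e2 : d * ψ' = ψk k := by
        ext ω
        rw [Pi.mul_apply, hψ']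
        simp only
        rw [← mul_assoc, mul_inv_cancel₀ (hd0 ω).ne', one_mul]
      have e3 : d * φ' = φk (k + 1) := by
        ext ω
        rw [Pi.mul_apply]
        by_cases hω : ω ∈ b
        · have := (hwb ω hω).ne'
          rw [hφ', indicator_of_mem hω]
          simp only [hφk]
          rw [indicator_of_mem hω, indicator_of_mem hω, pow_succ]
          field_simp
        · rw [hφ', indicator_of_notMem hω, mul_zero]
          simp only [hφk]
          rw [indicator_of_notMem hω]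
      have e4 : w * ψ' = ψk (k + 1) := by
        ext ω
        rw [Pi.mul_apply, hψ']
        by_cases hω : ω ∈ c
        · have := (hd0 ω).ne'
          simp only [hψk]
          rw [indicator_of_mem hω, indicator_of_mem hω, pow_succ]
          field_simp
        · simp only [hψk]
          rw [indicator_of_notMem hω, indicator_of_notMem hω, mul_zero, mul_zero]
      have h1 := D.antisymm hA hg hφ'B hψ'B hdis
      have h2 := D.antisymm hA hf (hφkB (k + 1)) (hψkB (k + 1)) (fun ω => by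
        by_cases hω : ω ∈ b
        · have h3 : ψk (k + 1) ω = 0 := indicator_of_notMem (hbc ω hω) _
          rw [h3, mul_zero]
        · have h3 : φk (k + 1) ω = 0 := indicator_of_notMem hω _
          rw [h3, zero_mul])
      rw [D.mulE hψ'B hd (χ := d * ψ') (fun ω => by rw [Pi.mul_apply, mul_comm]),
        D.mulE hφ'B hd (χ := d * φ') (fun ω => by rw [Pi.mul_apply, mul_comm]),
        hgw φ' hφ'B (by rw [e1]; exact hφkB k), hgw ψ' hψ'B (by rw [e4]; exact hψkB (k + 1)),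
        e1, e2, e3, e4] at h1
      linarith
    have hall : ∀ k, f (D.M (φk 0) (A (D.M (ψk 0) D.u))) =
        f (D.M (φk k) (A (D.M (ψk k) D.u))) := by
      intro k
      induction k with
      | zero => rfl
      | succ k ih => rw [ih, hstep k]
    have h00 : f (D.M (φk 0) (A (D.M (ψk 0) D.u))) = f (D.M φ (A (D.M ψ D.u))) := by
      have e1 : φk 0 = φ := by
        ext ω
        by_cases hω : ω ∈ b
        · simp only [hφk]
          rw [indicator_of_mem hω, pow_zero, one_mul]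
        · rw [hφb ω hω]
          exact indicator_of_notMem hω _
      have e2 : ψk 0 = ψ := by
        ext ω
        by_cases hω : ω ∈ c
        · simp only [hψk]
          rw [indicator_of_mem hω, pow_zero, one_mul]
        · rw [hψc ω hω]
          exact indicator_of_notMem hω _
      rw [e1, e2]
    have hbound : ∀ k, |f (D.M (φk k) (A (D.M (ψk k) D.u)))| ≤
        (t / t') ^ k * (Cφ * ‖A‖ * Cψ * ‖D.u‖) := by
      intro k
      have h1 : |f (D.M (φk k) (A (D.M (ψk k) D.u)))| ≤ ‖D.M (φk k) (A (D.M (ψk k) D.u))‖ := by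
        have h2 := f.le_opNorm (D.M (φk k) (A (D.M (ψk k) D.u)))
        rw [Real.norm_eq_abs] at h2
        have h3 := hf.1
        have h4 := norm_nonneg (D.M (φk k) (A (D.M (ψk k) D.u)))
        nlinarith
      have h2 := D.norm_le (hφkB k) (by positivity) (hφkb k) (A (D.M (ψk k) D.u))
      have h3 := A.le_opNorm (D.M (ψk k) D.u)
      have h4 := D.norm_le (hψkB k) (by positivity) (hψkb k) D.u
      calc |f (D.M (φk k) (A (D.M (ψk k) D.u)))|
          ≤ (1 / t') ^ k * Cφ * ‖A (D.M (ψk k) D.u)‖ := h1.trans h2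
        _ ≤ (1 / t') ^ k * Cφ * (‖A‖ * (t ^ k * Cψ * ‖D.u‖)) := by
            have := h3.trans (mul_le_mul_of_nonneg_left h4 (norm_nonneg A))
            gcongr
        _ = (t / t') ^ k * (Cφ * ‖A‖ * Cψ * ‖D.u‖) := by
            rw [div_pow, div_pow, one_pow]
            ring
    have hlim : Tendsto (fun k : ℕ => (t / t') ^ k * (Cφ * ‖A‖ * Cψ * ‖D.u‖)) atTop (𝓝 0) := by
      have h1 : t / t' < 1 := (div_lt_one ht').2 htt
      have h2 := (tendsto_pow_atTop_nhds_zero_of_lt_one (by positivity) h1).mul_const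
        (Cφ * ‖A‖ * Cψ * ‖D.u‖)
      rwa [zero_mul] at h2
    have h5 : |f (D.M φ (A (D.M ψ D.u)))| ≤ 0 := by
      refine ge_of_tendsto hlim (Eventually.of_forall fun k => ?_)
      rw [← h00, hall k]
      exact hbound k
    exact abs_nonpos_iff.1 h5
  refine D.zero_of_u ((D.P b).comp (A.comp (D.P c))) (fun ψ hψ => ?_) x
  show D.P b (A (D.P c (D.M ψ D.u))) = 0
  rw [D.P_M hcm hψ]
  refine D.faithful hμ hbm (fun e he _ hμe => hs e he hμe) (fun φ hφ hφb => ?_)
  exact key φ _ hφ (hψ.indicator hcm) hφb (fun ω hω => indicator_of_notMem hω _)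

/-- limits along increasing sequences of sets -/
theorem P_tendsto {s : ℕ → Set Ω} {S : Set Ω} (hs : ∀ n, MeasurableSet (s n))
    (hS : MeasurableSet S) (h1 : ∀ n, s n ⊆ S) (h2 : ∀ ω ∈ S, ∀ᶠ n in atTop, ω ∈ s n) (x : E) :
    Tendsto (fun n => D.P (s n) x) atTop (𝓝 (D.P S x)) := by
  refine (D.lin x).cont _ _ 1 (fun n => measurable_one.indicator (hs n))
    (measurable_one.indicator hS) (fun n ω => abs_ind_le _ ω) (fun ω => abs_ind_le _ ω)
    (fun ω => ?_)
  refine tendsto_const_nhds.congr' ?_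
  by_cases hω : ω ∈ S
  · filter_upwards [h2 ω hω] with n hn
    rw [indicator_of_mem hω, indicator_of_mem hn]
  · filter_upwards with n
    rw [indicator_of_notMem hω, indicator_of_notMem (fun h => hω (h1 n h))]

/-- the support functional at `M d u` is a multiple of `f ∘ M d` -/
theorem support_formula [CompleteSpace E] [TopologicalSpace.SeparableSpace E]
    (htr : ∀ x y : E, ‖x‖ = 1 → ‖y‖ = 1 → ∃ T : E ≃ₗᵢ[ℝ] E, T x = y)
    {A₀ : E →L[ℝ] E} (hA₀ : Sk A₀) (hne : A₀ ≠ 0)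
    {f g : E →L[ℝ] ℝ} {μ : Measure Ω} [IsFiniteMeasure μ] (hf : Spt D.u f)
    (hμ : ∀ φ : Ω → ℝ, Bd φ → ∫ ω, φ ω ∂μ = f (D.M φ D.u))
    (hs : ∀ b : Set Ω, MeasurableSet b → μ b = 0 → D.P b D.u = 0)
    {d : Ω → ℝ} (hd : Bd d) {δ : ℝ} (hδ : 0 < δ) (hdδ : ∀ ω, δ ≤ d ω)
    (hg : Spt (D.M d D.u) g) :
    ∃ c : ℝ, 0 ≤ c ∧ ∀ φ : Ω → ℝ, Bd φ → g (D.M φ D.u) = c * ∫ ω, d ω * φ ω ∂μ := by
  obtain ⟨w, hw, hw0, hwi, hgw⟩ := D.exists_density hμ hs hd hδ hdδ hg
  have hd0 : ∀ ω, 0 < d ω := fun ω => hδ.trans_le (hdδ ω)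
  have hcm : ∀ t : ℝ, MeasurableSet {ω | w ω ≤ t * d ω} := fun t =>
    measurableSet_le hw (hd.1.const_mul t)
  -- the dichotomy
  have hdich : ∀ t : ℝ, 0 ≤ t → (∀ x, D.P {ω | w ω ≤ t * d ω}ᶜ x = 0) ∨
      (∀ x, D.P {ω | w ω ≤ t * d ω} x = 0) := by
    intro t ht
    have h1 : ∀ A : E →L[ℝ] E, Sk A → ∀ x,
        D.P {ω | w ω ≤ t * d ω}ᶜ (A (D.P ({ω | w ω ≤ t * d ω}ᶜ)ᶜ x)) = 0 := by
      intro A hA x
      rw [compl_compl]
      have h2 : Tendsto (fun n : ℕ => D.P {ω | (t + 1 / ((n : ℝ) + 1)) * d ω ≤ w ω ∧ w ω ≤ n}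
          (A (D.P {ω | w ω ≤ t * d ω} x))) atTop
          (𝓝 (D.P {ω | w ω ≤ t * d ω}ᶜ (A (D.P {ω | w ω ≤ t * d ω} x)))) := by
        refine D.P_tendsto (fun n => (measurableSet_le (hd.1.const_mul _) hw).inter
          (measurableSet_le hw measurable_const)) (hcm t).compl (fun n ω hω h3 => ?_)
          (fun ω hω => ?_) _
        · have h4 : (t + 1 / ((n : ℝ) + 1)) * d ω ≤ w ω := hω.1
          have h5 : w ω ≤ t * d ω := h3
          have h6 : 0 < 1 / ((n : ℝ) + 1) * d ω := mul_pos (by positivity) (hd0 ω)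
          nlinarith
        · have h3 : t * d ω < w ω := not_le.1 hω
          obtain ⟨N, hN⟩ := exists_nat_ge (max (w ω) (d ω / (w ω - t * d ω)))
          filter_upwards [eventually_ge_atTop N] with n hn
          have hn' : (N : ℝ) ≤ n := by exact_mod_cast hn
          have h4 : w ω ≤ n := (le_max_left _ _).trans (hN.trans hn')
          have h5 : d ω / (w ω - t * d ω) ≤ n := (le_max_right _ _).trans (hN.trans hn')
          refine ⟨?_, h4⟩
          rw [div_le_iff₀ (by linarith)] at h5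
          have h6 : 1 / ((n : ℝ) + 1) * d ω ≤ w ω - t * d ω := by
            rw [one_div, inv_mul_le_iff₀ (by positivity)]
            nlinarith
          show (t + 1 / ((n : ℝ) + 1)) * d ω ≤ w ω
          rw [add_mul]
          linarith
      refine tendsto_nhds_unique h2 (tendsto_const_nhds.congr (fun n => ?_))
      have hn : t < t + 1 / ((n : ℝ) + 1) := by
        have : 0 < 1 / ((n : ℝ) + 1) := by positivity
        linarith
      exact (D.level_zero hf hμ hs hd hδ hdδ hg hw hw0 hgw hA ht hn n x).symm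
    have h2 := D.irred htr hA₀ hne (hcm t).compl h1
    rwa [compl_compl] at h2
  have hu : D.u ≠ 0 := D.u_ne_zero hne
  -- the constant
  set S : Set ℝ := {t | 0 ≤ t ∧ ∀ x, D.P {ω | w ω ≤ t * d ω}ᶜ x = 0} with hS
  have hSne : S.Nonempty := by
    by_contra hcon
    rw [not_nonempty_iff_eq_empty] at hcon
    have h1 : ∀ n : ℕ, D.P {ω | w ω ≤ n * d ω} D.u = 0 := by
      intro n
      rcases hdich n (by positivity) with h | h
      · have : (n : ℝ) ∈ S := ⟨by positivity, h⟩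
        rw [hcon] at this
        exact absurd this (notMem_empty _)
      · exact h _
    have h2 : Tendsto (fun n : ℕ => D.P {ω | w ω ≤ n * d ω} D.u) atTop (𝓝 (D.P univ D.u)) := by
      refine D.P_tendsto (fun n => hcm n) MeasurableSet.univ (fun n => subset_univ _)
        (fun ω _ => ?_) _
      obtain ⟨N, hN⟩ := exists_nat_ge (w ω / d ω)
      filter_upwards [eventually_ge_atTop N] with n hn
      have hn' : (N : ℝ) ≤ n := by exact_mod_cast hn
      rw [div_le_iff₀ (hd0 ω)] at hN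
      show w ω ≤ n * d ω
      have := hd0 ω
      nlinarith
    rw [D.P_univ] at h2
    exact hu (tendsto_nhds_unique h2 (tendsto_const_nhds.congr (fun n => (h1 n).symm)))
  have hSb : BddBelow S := ⟨0, fun t ht => ht.1⟩
  set t0 : ℝ := sInf S with ht0
  have ht00 : 0 ≤ t0 := le_csInf hSne (fun t ht => ht.1)
  have hup : ∀ t, t0 < t → D.P {ω | w ω ≤ t * d ω}ᶜ D.u = 0 := by
    intro t ht
    obtain ⟨s, hs1, hs2⟩ := (csInf_lt_iff hSb hSne).1 ht
    have h1 := D.P_mono (b := {ω | w ω ≤ t * d ω}ᶜ) (c := {ω | w ω ≤ s * d ω}ᶜ) (hcm t).compl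
      (hcm s).compl (fun ω hω h3 => hω (by
        have h4 : w ω ≤ s * d ω := h3
        show w ω ≤ t * d ω
        have := hd0 ω
        nlinarith)) D.u
    rw [hs1.2, norm_zero] at h1
    exact norm_le_zero_iff.1 h1
  have hdown : ∀ t, 0 ≤ t → t < t0 → D.P {ω | w ω ≤ t * d ω} D.u = 0 := by
    intro t ht1 ht2
    rcases hdich t ht1 with h | h
    · exact absurd (csInf_le hSb ⟨ht1, h⟩) (not_le.2 ht2)
    · exact h _
  -- null sets
  have hnull : ∀ b : Set Ω, MeasurableSet b → D.P b D.u = 0 → μ b = 0 := by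
    intro b hb h1
    have h2 : ∫ ω, b.indicator (1 : Ω → ℝ) ω ∂μ = 0 := by
      rw [hμ _ (Bd.ind hb)]
      have : D.M (b.indicator 1) D.u = 0 := h1
      rw [this, map_zero]
    rw [integral_indicator_one hb, measureReal_eq_zero_iff] at h2
    exact h2
  have hae : ∀ᵐ ω ∂μ, w ω = t0 * d ω := by
    have h1 : ∀ᵐ ω ∂μ, ∀ n : ℕ, w ω ≤ (t0 + 1 / ((n : ℝ) + 1)) * d ω := by
      rw [ae_all_iff]
      intro n
      have h2 := hnull _ (hcm (t0 + 1 / ((n : ℝ) + 1))).compl (hup _ (by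
        have : 0 < 1 / ((n : ℝ) + 1) := by positivity
        linarith))
      rw [measure_eq_zero_iff_ae_notMem] at h2
      filter_upwards [h2] with ω hω
      exact not_not.1 hω
    have h2 : ∀ᵐ ω ∂μ, ∀ n : ℕ, 0 ≤ t0 - 1 / ((n : ℝ) + 1) →
        (t0 - 1 / ((n : ℝ) + 1)) * d ω < w ω := by
      rw [ae_all_iff]
      intro n
      by_cases h0 : 0 ≤ t0 - 1 / ((n : ℝ) + 1)
      · have h2 := hnull _ (hcm (t0 - 1 / ((n : ℝ) + 1))) (hdown _ h0 (by
          have : 0 < 1 / ((n : ℝ) + 1) := by positivity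
          linarith))
        rw [measure_eq_zero_iff_ae_notMem] at h2
        filter_upwards [h2] with ω hω _
        exact not_le.1 hω
      · exact Eventually.of_forall fun ω h => absurd h h0
    have hlim : Tendsto (fun n : ℕ => 1 / ((n : ℝ) + 1)) atTop (𝓝 0) :=
      tendsto_one_div_add_atTop_nhds_zero_nat
    filter_upwards [h1, h2] with ω h3 h4
    refine le_antisymm ?_ ?_
    · have h5 : Tendsto (fun n : ℕ => (t0 + 1 / ((n : ℝ) + 1)) * d ω) atTop
          (𝓝 ((t0 + 0) * d ω)) := (tendsto_const_nhds.add hlim).mul_const _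
      rw [add_zero] at h5
      exact ge_of_tendsto' h5 h3
    · rcases ht00.eq_or_lt with h5 | h5
      · rw [← h5, zero_mul]; exact hw0 ω
      · have h6 : Tendsto (fun n : ℕ => (t0 - 1 / ((n : ℝ) + 1)) * d ω) atTop
            (𝓝 ((t0 - 0) * d ω)) := (tendsto_const_nhds.sub hlim).mul_const _
        rw [sub_zero] at h6
        refine le_of_tendsto h6 ?_
        have h7 : ∀ᶠ n : ℕ in atTop, 1 / ((n : ℝ) + 1) < t0 := hlim.eventually_lt_const h5
        filter_upwards [h7] with n hn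
        exact (h4 n (by linarith)).le
  refine ⟨t0, ht00, fun φ hφ => ?_⟩
  rw [← hwi φ hφ, ← integral_const_mul]
  refine integral_congr_ae ?_
  filter_upwards [hae] with ω hω
  rw [hω, mul_assoc]

end Mult

end Pool.Q193.BF
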