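import Mathlib
import Pool.Agent.Q193.BF.Dens

/-!
# The norm is Hilbertian
-/

set_option autoImplicit false

namespace Pool.Q193.BF

open Filter Topology MeasureTheory Set

variable {Ω : Type*} [MeasurableSpace Ω]

theorem iter_ge (a : ℕ → ℝ) (K : ℝ) (hK : 0 ≤ K) (N : ℕ) (hN : 0 < N) (hKN : K ≤ N)
    (h0 : ∀ i, 0 ≤ a i) (h : ∀ i, i < N → a i * (1 - K / (N : ℝ) ^ 2) ≤ a (i + 1)) :
    a 0 * (1 - K / N) ≤ a N := by
  have hN' : (1 : ℝ) ≤ N := by exact_mod_cast hN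
  have hx0 : 0 ≤ K / (N : ℝ) ^ 2 := by positivity
  have hx1 : K / (N : ℝ) ^ 2 ≤ 1 := by
    rw [div_le_one (by positivity)]
    nlinarith
  have h1 : ∀ i, i ≤ N → a 0 * (1 - K / (N : ℝ) ^ 2) ^ i ≤ a i := by
    intro i
    induction i with
    | zero => intro _; simp
    | succ i ih =>
      intro hi
      have h2 := ih (by omega)
      have h3 := h i (by omega)
      calc a 0 * (1 - K / (N : ℝ) ^ 2) ^ (i + 1)
          = a 0 * (1 - K / (N : ℝ) ^ 2) ^ i * (1 - K / (N : ℝ) ^ 2) := by ring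
        _ ≤ a i * (1 - K / (N : ℝ) ^ 2) := by
            have : 0 ≤ 1 - K / (N : ℝ) ^ 2 := by linarith
            gcongr
        _ ≤ a (i + 1) := h3
  have h2 := h1 N le_rfl
  have h3 : 1 - K / N ≤ (1 - K / (N : ℝ) ^ 2) ^ N := by
    have h4 := one_add_mul_le_pow (a := -(K / (N : ℝ) ^ 2)) (by linarith) N
    have h5 : 1 + (N : ℝ) * -(K / (N : ℝ) ^ 2) = 1 - K / N := by
      have : (N : ℝ) ≠ 0 := by positivity
      field_simp
      ring
    rw [h5] at h4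
    have h6 : 1 + -(K / (N : ℝ) ^ 2) = 1 - K / (N : ℝ) ^ 2 := by ring
    rwa [h6] at h4
  have h4 : a 0 * (1 - K / N) ≤ a 0 * (1 - K / (N : ℝ) ^ 2) ^ N := by
    have := h0 0
    gcongr
  exact h4.trans h2

theorem const_of_quad (h : ℝ → ℝ) (K : ℝ) (hK : 0 ≤ K) (h0 : ∀ s, 0 ≤ s → s ≤ 1 → 0 ≤ h s)
    (hh : ∀ s t, 0 ≤ s → s ≤ 1 → 0 ≤ t → t ≤ 1 → h s * (1 - K * (s - t) ^ 2) ≤ h t) :
    h 0 ≤ h 1 := by
  have key : ∀ N : ℕ, 0 < N → K ≤ N → h 0 * (1 - K / N) ≤ h 1 := by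
    intro N hN hKN
    have hN' : (0 : ℝ) < N := by exact_mod_cast hN
    set a : ℕ → ℝ := fun i => if i ≤ N then h ((i : ℝ) / N) else 0 with ha
    have hi01 : ∀ i : ℕ, i ≤ N → 0 ≤ (i : ℝ) / N ∧ (i : ℝ) / N ≤ 1 := by
      intro i hi
      have : (i : ℝ) ≤ N := by exact_mod_cast hi
      exact ⟨by positivity, (div_le_one hN').2 this⟩
    have h1 := iter_ge a K hK N hN hKN (fun i => by
      by_cases hi : i ≤ N
      · simp only [ha, hi, if_true]
        exact h0 _ (hi01 i hi).1 (hi01 i hi).2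
      · simp only [ha, hi, if_false]; exact le_rfl) (fun i hi => by
      have h2 : i ≤ N := by omega
      have h3 : i + 1 ≤ N := by omega
      simp only [ha, h2, h3, if_true]
      have h4 := hh ((i : ℝ) / N) (((i + 1 : ℕ) : ℝ) / N) (hi01 i h2).1 (hi01 i h2).2
        (hi01 (i + 1) h3).1 (hi01 (i + 1) h3).2
      have h5 : K * ((i : ℝ) / N - ((i + 1 : ℕ) : ℝ) / N) ^ 2 = K / (N : ℝ) ^ 2 := by
        push_cast
        field_simp
        ring
      rwa [h5] at h4)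
    have h2 : a 0 = h 0 := by simp [ha]
    have h3 : a N = h 1 := by simp [ha, div_self hN'.ne']
    rwa [h2, h3] at h1
  have hlim : Tendsto (fun N : ℕ => h 0 * (1 - K / (N : ℝ))) atTop (𝓝 (h 0 * (1 - 0))) :=
    (tendsto_const_nhds.sub (tendsto_const_div_atTop_nhds_zero_nat K)).const_mul _
  rw [sub_zero, mul_one] at hlim
  refine le_of_tendsto hlim ?_
  obtain ⟨N0, hN0⟩ := exists_nat_ge K
  filter_upwards [eventually_ge_atTop (N0 + 1)] with N hN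
  have : (N0 : ℝ) ≤ N := by
    have : N0 ≤ N := by omega
    exact_mod_cast this
  exact key N (by omega) (by linarith)

variable {E : Type*} [NormedAddCommGroup E] [NormedSpace ℝ E] (D : Mult Ω E)

namespace Mult

/-- one sided comparison -/
theorem compare [CompleteSpace E] [TopologicalSpace.SeparableSpace E]
    (htr : ∀ x y : E, ‖x‖ = 1 → ‖y‖ = 1 → ∃ T : E ≃ₗᵢ[ℝ] E, T x = y)
    {A₀ : E →L[ℝ] E} (hA₀ : Sk A₀) (hne : A₀ ≠ 0)
    {f : E →L[ℝ] ℝ} {μ : Measure Ω} [IsFiniteMeasure μ] (hf : Spt D.u f)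
    (hμ : ∀ φ : Ω → ℝ, Bd φ → ∫ ω, φ ω ∂μ = f (D.M φ D.u))
    (hs : ∀ b : Set Ω, MeasurableSet b → μ b = 0 → D.P b D.u = 0)
    {d e : Ω → ℝ} (hd : Bd d) (he : Bd e) {δ : ℝ} (hδ : 0 < δ) (hdδ : ∀ ω, δ ≤ d ω)
    (heδ : ∀ ω, δ ≤ e ω) :
    ‖D.M d D.u‖ * Real.sqrt (∫ ω, e ω * e ω ∂μ) ≤ ‖D.M e D.u‖ * Real.sqrt (∫ ω, d ω * d ω ∂μ) := by
  -- the basic inequality
  have hbasic : ∀ a c : Ω → ℝ, Bd a → Bd c → (∀ ω, δ ≤ a ω) →
      ‖D.M a D.u‖ * ∫ ω, a ω * c ω ∂μ ≤ ‖D.M c D.u‖ * ∫ ω, a ω * a ω ∂μ := by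
    intro a c ha hc haδ
    obtain ⟨g, hg⟩ := exists_spt (D.M a D.u)
    obtain ⟨k, hk0, hk⟩ := D.support_formula htr hA₀ hne hf hμ hs ha hδ haδ hg
    have h1 := hk a ha
    have h2 := hk c hc
    rw [hg.2] at h1
    have h3 := hg.le (D.M c D.u)
    rw [h2] at h3
    have h4 : 0 ≤ ∫ ω, a ω * a ω ∂μ := integral_nonneg (fun ω => mul_self_nonneg _)
    rw [h1]
    have h5 := mul_le_mul_of_nonneg_right h3 h4
    linarith
  have hμ0 : 0 < ∫ _ : Ω, (1 : ℝ) ∂μ := by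
    have h1 := hμ 1 Bd.one
    rw [D.one_apply, hf.2] at h1
    have h2 : 0 < ‖D.u‖ := norm_pos_iff.2 (D.u_ne_zero hne)
    have h3 : ∫ ω, (1 : Ω → ℝ) ω ∂μ = ∫ _ : Ω, (1 : ℝ) ∂μ := rfl
    rw [← h3, h1]
    exact h2
  set m : ℝ := δ ^ 2 * ∫ _ : Ω, (1 : ℝ) ∂μ with hm
  have hm0 : 0 < m := by positivity
  set κ : ℝ := ∫ ω, (e ω - d ω) * (e ω - d ω) ∂μ with hκ
  have hκ0 : 0 ≤ κ := integral_nonneg (fun ω => mul_self_nonneg _)
  -- the path
  set p : ℝ → Ω → ℝ := fun s => d + s • (e - d) with hp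
  have hpB : ∀ s, Bd (p s) := fun s => hd.add ((he.sub hd).smul s)
  have hpδ : ∀ s, 0 ≤ s → s ≤ 1 → ∀ ω, δ ≤ p s ω := by
    intro s hs0 hs1 ω
    have h1 := hdδ ω
    have h2 := heδ ω
    simp only [hp, Pi.add_apply, Pi.smul_apply, Pi.sub_apply, smul_eq_mul]
    nlinarith
  set Q : ℝ → ℝ := fun s => ∫ ω, p s ω * p s ω ∂μ with hQ
  have hQm : ∀ s, 0 ≤ s → s ≤ 1 → m ≤ Q s := by
    intro s hs0 hs1
    rw [hm, ← integral_const_mul]
    refine integral_mono ((Bd.const _).integrable) ((hpB s).mul (hpB s)).integrable (fun ω => ?_)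
    have h1 := hpδ s hs0 hs1 ω
    simp only [mul_one]
    nlinarith
  have hpol : ∀ s t, ∫ ω, p s ω * p t ω ∂μ = (Q s + Q t) / 2 - (s - t) ^ 2 * κ / 2 := by
    intro s t
    have h1 : ∀ ω, p s ω * p t ω = (p s ω * p s ω + p t ω * p t ω) / 2 -
        (s - t) ^ 2 / 2 * ((e ω - d ω) * (e ω - d ω)) := by
      intro ω
      simp only [hp, Pi.add_apply, Pi.smul_apply, Pi.sub_apply, smul_eq_mul]
      ring
    have i1 : Integrable (fun ω => p s ω * p s ω) μ := ((hpB s).mul (hpB s)).integrable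
    have i2 : Integrable (fun ω => p t ω * p t ω) μ := ((hpB t).mul (hpB t)).integrable
    have i3 : Integrable (fun ω => (e ω - d ω) * (e ω - d ω)) μ :=
      ((he.sub hd).mul (he.sub hd)).integrable
    have i12 : Integrable (fun ω => (p s ω * p s ω + p t ω * p t ω) / 2) μ :=
      (i1.add i2).div_const 2
    rw [integral_congr_ae (Eventually.of_forall h1), integral_sub i12
      (i3.const_mul _), integral_const_mul, integral_div, integral_add i1 i2]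
    simp only [hQ, hκ]
    ring
  set h : ℝ → ℝ := fun s => ‖D.M (p s) D.u‖ / Real.sqrt (Q s) with hh
  have hconst := const_of_quad h (κ / (2 * m)) (by positivity)
    (fun s _ _ => by simp only [hh]; positivity) (fun s t hs0 hs1 ht0 ht1 => by
      have hQs := hQm s hs0 hs1
      have hQt := hQm t ht0 ht1
      have hQs0 : 0 < Q s := hm0.trans_le hQs
      have hQt0 : 0 < Q t := hm0.trans_le hQt
      set a := Real.sqrt (Q s) with haq
      set b := Real.sqrt (Q t) with hbq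
      have ha : 0 < a := Real.sqrt_pos.2 hQs0
      have hb : 0 < b := Real.sqrt_pos.2 hQt0
      have ha2 : a * a = Q s := Real.mul_self_sqrt hQs0.le
      have hb2 : b * b = Q t := Real.mul_self_sqrt hQt0.le
      have h1 := hbasic (p s) (p t) (hpB s) (hpB t) (hpδ s hs0 hs1)
      rw [hpol s t] at h1
      have h2 : ‖D.M (p s) D.u‖ * (a * b - (s - t) ^ 2 * κ / 2) ≤ ‖D.M (p t) D.u‖ * Q s := by
        refine le_trans ?_ h1
        have h3 : a * b ≤ (Q s + Q t) / 2 := by nlinarith [sq_nonneg (a - b)]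
        gcongr
      have hab : m ≤ a * b := by
        have h3 : Real.sqrt m ≤ a := Real.sqrt_le_sqrt hQs
        have h4 : Real.sqrt m ≤ b := Real.sqrt_le_sqrt hQt
        have h5 : Real.sqrt m * Real.sqrt m = m := Real.mul_self_sqrt hm0.le
        rw [← h5]
        gcongr
      have h3 : 1 - κ / (2 * m) * (s - t) ^ 2 ≤ (a * b - (s - t) ^ 2 * κ / 2) / (a * b) := by
        have hab0 : 0 < a * b := by positivity
        rw [sub_div, div_self hab0.ne']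
        have h4 : (s - t) ^ 2 * κ / 2 / (a * b) ≤ (s - t) ^ 2 * κ / 2 / m := by
          gcongr
        have h5 : (s - t) ^ 2 * κ / 2 / m = κ / (2 * m) * (s - t) ^ 2 := by
          field_simp
        linarith
      show ‖D.M (p s) D.u‖ / a * (1 - κ / (2 * m) * (s - t) ^ 2) ≤ ‖D.M (p t) D.u‖ / b
      calc ‖D.M (p s) D.u‖ / a * (1 - κ / (2 * m) * (s - t) ^ 2)
          ≤ ‖D.M (p s) D.u‖ / a * ((a * b - (s - t) ^ 2 * κ / 2) / (a * b)) := by
            have : 0 ≤ ‖D.M (p s) D.u‖ / a := by positivity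
            gcongr
        _ = (‖D.M (p s) D.u‖ * (a * b - (s - t) ^ 2 * κ / 2)) / (a * (a * b)) := by
            field_simp
        _ ≤ (‖D.M (p t) D.u‖ * Q s) / (a * (a * b)) := by gcongr
        _ = ‖D.M (p t) D.u‖ / b := by
            rw [← ha2]
            field_simp)
  have hp0 : p 0 = d := by simp [hp]
  have hp1 : p 1 = e := by
    ext ω
    simp [hp]
  have hQ0 : 0 < Q 0 := hm0.trans_le (hQm 0 le_rfl zero_le_one)
  have hQ1 : 0 < Q 1 := hm0.trans_le (hQm 1 zero_le_one le_rfl)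
  have h5 : h 0 ≤ h 1 := hconst
  simp only [hh] at h5
  rw [div_le_div_iff₀ (Real.sqrt_pos.2 hQ0) (Real.sqrt_pos.2 hQ1)] at h5
  simp only [hQ, hp0, hp1] at h5
  exact h5

/-- the norm on the orbit of the cyclic vector -/
theorem norm_formula [CompleteSpace E] [TopologicalSpace.SeparableSpace E]
    (htr : ∀ x y : E, ‖x‖ = 1 → ‖y‖ = 1 → ∃ T : E ≃ₗᵢ[ℝ] E, T x = y)
    {A₀ : E →L[ℝ] E} (hA₀ : Sk A₀) (hne : A₀ ≠ 0) :
    ∃ μ : Measure Ω, IsFiniteMeasure μ ∧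
      ∀ φ : Ω → ℝ, Bd φ → ‖D.M φ D.u‖ ^ 2 = ∫ ω, φ ω ^ 2 ∂μ := by
  obtain ⟨f, hf⟩ := exists_spt D.u
  obtain ⟨μ, hfin, hμb, hμ⟩ := D.exists_measure hf
  have hs : ∀ b : Set Ω, MeasurableSet b → μ b = 0 → D.P b D.u = 0 := by
    intro b hb h1
    refine D.strict htr hA₀ hne hf hb ?_ _
    have h2 := hμ _ (Bd.ind hb)
    rw [integral_indicator_one hb, Measure.real, h1, ENNReal.toReal_zero] at h2
    exact h2.symm
  have hu : 0 < ‖D.u‖ := norm_pos_iff.2 (D.u_ne_zero hne)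
  have h1i : ∫ ω, (1 : Ω → ℝ) ω * (1 : Ω → ℝ) ω ∂μ = ‖D.u‖ := by
    have h1 := hμ 1 Bd.one
    rw [D.one_apply, hf.2] at h1
    rw [← h1]
    simp
  -- functions bounded below
  have hlow : ∀ d : Ω → ℝ, Bd d → ∀ δ : ℝ, 0 < δ → (∀ ω, δ ≤ d ω) →
      ‖D.M d D.u‖ ^ 2 = ‖D.u‖ * ∫ ω, d ω * d ω ∂μ := by
    intro d hd δ hδ hdδ
    set δ' : ℝ := min δ 1 with hδ'
    have hδ'0 : 0 < δ' := lt_min hδ zero_lt_one
    have h2 : ∀ ω, δ' ≤ d ω := fun ω => (min_le_left _ _).trans (hdδ ω)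
    have h3 : ∀ ω, δ' ≤ (1 : Ω → ℝ) ω := fun ω => min_le_right _ _
    have h4 := D.compare htr hA₀ hne hf hμ hs hd Bd.one hδ'0 h2 h3
    have h5 := D.compare htr hA₀ hne hf hμ hs Bd.one hd hδ'0 h3 h2
    have h6 := le_antisymm h4 h5
    rw [h1i, D.one_apply] at h6
    have h7 : 0 ≤ ∫ ω, d ω * d ω ∂μ := integral_nonneg (fun ω => mul_self_nonneg _)
    have h8 := congrArg (fun z => z ^ 2) h6
    simp only [mul_pow] at h8
    rw [Real.sq_sqrt hu.le, Real.sq_sqrt h7] at h8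
    have h9 : ‖D.u‖ * (‖D.M d D.u‖ ^ 2) = ‖D.u‖ * (‖D.u‖ * ∫ ω, d ω * d ω ∂μ) := by
      rw [mul_comm, h8]; ring
    exact mul_left_cancel₀ hu.ne' h9
  -- all functions
  have hall : ∀ φ : Ω → ℝ, Bd φ → ‖D.M φ D.u‖ ^ 2 = ‖D.u‖ * ∫ ω, φ ω * φ ω ∂μ := by
    intro φ hφ
    have ha : Bd (fun ω => |φ ω|) := hφ.abs
    have e1 : ‖D.M φ D.u‖ = ‖D.M (fun ω => |φ ω|) D.u‖ :=
      D.norm_eq hφ ha (fun ω => by rw [abs_abs]) _
    obtain ⟨C, hC0, hC⟩ := hφ.exists_bound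
    have h0 : Tendsto (fun n : ℕ => 1 / ((n : ℝ) + 1)) atTop (𝓝 0) :=
      tendsto_one_div_add_atTop_nhds_zero_nat
    have hn1 : ∀ n : ℕ, 1 / ((n : ℝ) + 1) ≤ 1 := by
      intro n
      rw [div_le_one (by positivity)]
      have : (0 : ℝ) ≤ n := by positivity
      linarith
    have hm : ∀ n : ℕ, Measurable (fun ω => |φ ω| + 1 / ((n : ℝ) + 1)) := fun n =>
      ha.1.add measurable_const
    have hb : ∀ (n : ℕ) (ω : Ω), |(|φ ω| + 1 / ((n : ℝ) + 1))| ≤ C + 1 := by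
      intro n ω
      have h2 : (0 : ℝ) ≤ |φ ω| := abs_nonneg _
      have h3 : (0 : ℝ) ≤ 1 / ((n : ℝ) + 1) := by positivity
      rw [abs_of_nonneg (by linarith)]
      have := hC ω
      have := hn1 n
      linarith
    have hpt : ∀ ω, Tendsto (fun n : ℕ => |φ ω| + 1 / ((n : ℝ) + 1)) atTop (𝓝 |φ ω|) := by
      intro ω
      have := h0.const_add |φ ω|
      rwa [add_zero] at this
    have hL := (D.lin D.u).cont (fun n : ℕ => fun ω => |φ ω| + 1 / ((n : ℝ) + 1))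
      (fun ω => |φ ω|) (C + 1) hm ha.1 hb
      (fun ω => by rw [abs_abs]; have := hC ω; linarith) hpt
    have hL2 : Tendsto (fun n : ℕ => ‖D.M (fun ω => |φ ω| + 1 / ((n : ℝ) + 1)) D.u‖ ^ 2) atTop
        (𝓝 (‖D.M (fun ω => |φ ω|) D.u‖ ^ 2)) := hL.norm.pow 2
    have hR : Tendsto (fun n : ℕ => ‖D.u‖ * ∫ ω, (|φ ω| + 1 / ((n : ℝ) + 1)) *
        (|φ ω| + 1 / ((n : ℝ) + 1)) ∂μ) atTop (𝓝 (‖D.u‖ * ∫ ω, |φ ω| * |φ ω| ∂μ)) := by
      refine Tendsto.const_mul _ ?_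
      refine (lin_integral μ).cont (fun n : ℕ => fun ω => (|φ ω| + 1 / ((n : ℝ) + 1)) *
        (|φ ω| + 1 / ((n : ℝ) + 1))) (fun ω => |φ ω| * |φ ω|) ((C + 1) * (C + 1))
        (fun n => (hm n).mul (hm n)) (ha.1.mul ha.1) (fun n ω => ?_) (fun ω => ?_) (fun ω => ?_)
      · rw [abs_mul]
        have := hb n ω
        gcongr
      · rw [abs_mul, abs_abs]
        have := hC ω
        have h3 : |φ ω| ≤ C + 1 := by linarith
        gcongr
      · exact (hpt ω).mul (hpt ω)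
    have e2 : ‖D.M (fun ω => |φ ω|) D.u‖ ^ 2 = ‖D.u‖ * ∫ ω, |φ ω| * |φ ω| ∂μ := by
      refine tendsto_nhds_unique hL2 (hR.congr (fun n => ?_))
      refine (hlow _ ⟨hm n, C + 1, hb n⟩ (1 / ((n : ℝ) + 1)) (by positivity) (fun ω => ?_)).symm
      have := abs_nonneg (φ ω)
      linarith
    rw [e1, e2]
    congr 1
    refine integral_congr_ae (Eventually.of_forall fun ω => ?_)
    exact abs_mul_abs_self _
  refine ⟨‖D.u‖₊ • μ, inferInstance, fun φ hφ => ?_⟩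
  rw [hall φ hφ, integral_smul_nnreal_measure]
  show _ = ‖D.u‖ * _
  congr 1
  refine integral_congr_ae (Eventually.of_forall fun ω => ?_)
  simp only [sq]

include D in
theorem parallelogram [CompleteSpace E] [TopologicalSpace.SeparableSpace E]
    (htr : ∀ x y : E, ‖x‖ = 1 → ‖y‖ = 1 → ∃ T : E ≃ₗᵢ[ℝ] E, T x = y)
    {A₀ : E →L[ℝ] E} (hA₀ : Sk A₀) (hne : A₀ ≠ 0) (x y : E) :
    ‖x + y‖ * ‖x + y‖ + ‖x - y‖ * ‖x - y‖ = 2 * (‖x‖ * ‖x‖ + ‖y‖ * ‖y‖) := by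
  obtain ⟨μ, hfin, hμ⟩ := D.norm_formula htr hA₀ hne
  obtain ⟨r, hr, -, hrx⟩ := D.exists_approx x
  obtain ⟨s, hs, -, hsy⟩ := D.exists_approx y
  set a : ℕ → Ω → ℝ := fun n => {ω | |r ω| ≤ n}.indicator r with ha
  set b : ℕ → Ω → ℝ := fun n => {ω | |s ω| ≤ n}.indicator s with hb
  have haB : ∀ n, Bd (a n) := fun n => bd_trunc hr n
  have hbB : ∀ n, Bd (b n) := fun n => bd_trunc hs n
  have hL : Tendsto (fun n => ‖D.M (a n) D.u + D.M (b n) D.u‖ * ‖D.M (a n) D.u + D.M (b n) D.u‖ +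
      ‖D.M (a n) D.u - D.M (b n) D.u‖ * ‖D.M (a n) D.u - D.M (b n) D.u‖) atTop
      (𝓝 (‖x + y‖ * ‖x + y‖ + ‖x - y‖ * ‖x - y‖)) :=
    (((hrx.add hsy).norm.mul (hrx.add hsy).norm).add
      ((hrx.sub hsy).norm.mul (hrx.sub hsy).norm))
  have hR : Tendsto (fun n => 2 * (‖D.M (a n) D.u‖ * ‖D.M (a n) D.u‖ +
      ‖D.M (b n) D.u‖ * ‖D.M (b n) D.u‖)) atTop (𝓝 (2 * (‖x‖ * ‖x‖ + ‖y‖ * ‖y‖))) :=
    ((hrx.norm.mul hrx.norm).add (hsy.norm.mul hsy.norm)).const_mul 2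
  refine tendsto_nhds_unique hL (hR.congr (fun n => ?_))
  have h1 := hμ _ ((haB n).add (hbB n))
  have h2 := hμ _ ((haB n).sub (hbB n))
  have h3 := hμ _ (haB n)
  have h4 := hμ _ (hbB n)
  rw [D.M_add (haB n) (hbB n)] at h1
  rw [D.M_sub (haB n) (hbB n)] at h2
  rw [← sq, ← sq, ← sq, ← sq, h1, h2, h3, h4]
  have i1 : Integrable (fun ω => a n ω ^ 2) μ := by
    have := ((haB n).mul (haB n)).integrable (μ := μ)
    refine this.congr (Eventually.of_forall fun ω => ?_)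
    simp only [Pi.mul_apply, sq]
  have i2 : Integrable (fun ω => b n ω ^ 2) μ := by
    have := ((hbB n).mul (hbB n)).integrable (μ := μ)
    refine this.congr (Eventually.of_forall fun ω => ?_)
    simp only [Pi.mul_apply, sq]
  have i3 : Integrable (fun ω => (a n + b n) ω ^ 2) μ := by
    have := (((haB n).add (hbB n)).mul ((haB n).add (hbB n))).integrable (μ := μ)
    refine this.congr (Eventually.of_forall fun ω => ?_)
    simp only [Pi.mul_apply, sq]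
  have i4 : Integrable (fun ω => (a n - b n) ω ^ 2) μ := by
    have := (((haB n).sub (hbB n)).mul ((haB n).sub (hbB n))).integrable (μ := μ)
    refine this.congr (Eventually.of_forall fun ω => ?_)
    simp only [Pi.mul_apply, sq]
  rw [← integral_add i1 i2, ← integral_const_mul, ← integral_add i3 i4]
  refine integral_congr_ae (Eventually.of_forall fun ω => ?_)
  simp only [Pi.add_apply, Pi.sub_apply]
  ring

end Mult

end Pool.Q193.BF
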