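import Mathlib
import Pool.Agent.Q193.BF.Hilb
import Pool.Agent.Q193.BF.FS

/-!
# Complex function spaces

A solid space of complex functions on `Ω` is a solid space of real functions on `Ω ⊕ Ω` with a skew
operator, the multiplication by the imaginary unit.
-/

set_option autoImplicit false

namespace Pool.Q193.BF

open Filter Topology MeasureTheory Set

variable {Ω : Type*} [MeasurableSpace Ω] {E : Type*} [NormedAddCommGroup E] [NormedSpace ℝ E]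

theorem real_case {m : Measure Ω} (ι : E →ₗ[ℝ] (Ω →ₘ[m] ℝ)) (hinj : Function.Injective ι)
    (hsol : ∀ (x : E) (g : Ω →ₘ[m] ℝ), (∀ᵐ ω ∂m, |g ω| ≤ |ι x ω|) → ∃ y : E, ι y = g ∧ ‖y‖ ≤ ‖x‖)
    [CompleteSpace E] [TopologicalSpace.SeparableSpace E]
    (htr : ∀ x y : E, ‖x‖ = 1 → ‖y‖ = 1 → ∃ T : E ≃ₗᵢ[ℝ] E, T x = y)
    {A₀ : E →L[ℝ] E} (hA₀ : Sk A₀) (hne : A₀ ≠ 0) (x y : E) :
    ‖x + y‖ * ‖x + y‖ + ‖x - y‖ * ‖x - y‖ = 2 * (‖x‖ * ‖x‖ + ‖y‖ * ‖y‖) := by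
  obtain ⟨D⟩ := exists_mult ι hinj hsol
  exact D.parallelogram htr hA₀ hne x y

section two

theorem emb_inl : MeasurableEmbedding (Sum.inl : Ω → Ω ⊕ Ω) :=
  ⟨Sum.inl_injective, measurable_inl, fun {_} hs => hs.inl_image⟩

theorem emb_inr : MeasurableEmbedding (Sum.inr : Ω → Ω ⊕ Ω) :=
  ⟨Sum.inr_injective, measurable_inr, fun {_} hs => hs.inr_image⟩

/-- two copies of a measure -/
noncomputable def dbl (m : Measure Ω) : Measure (Ω ⊕ Ω) := m.map Sum.inl + m.map Sum.inr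

theorem ae_dbl {m : Measure Ω} {p : Ω ⊕ Ω → Prop} :
    (∀ᵐ ω ∂(dbl m), p ω) ↔ (∀ᵐ ω ∂m, p (Sum.inl ω)) ∧ (∀ᵐ ω ∂m, p (Sum.inr ω)) := by
  rw [dbl, ae_add_measure_iff, emb_inl.ae_map_iff, emb_inr.ae_map_iff]

variable {m : Measure Ω}

/-- real and imaginary parts -/
noncomputable def ri (f : Ω →ₘ[m] ℂ) : (Ω ⊕ Ω) →ₘ[dbl m] ℝ :=
  AEEqFun.mk (Sum.elim (fun ω => (f ω).re) (fun ω => (f ω).im))
    ((Complex.measurable_re.comp f.measurable).sumElim
      (Complex.measurable_im.comp f.measurable)).aestronglyMeasurable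

theorem ri_ae (f : Ω →ₘ[m] ℂ) : (∀ᵐ ω ∂m, ri f (Sum.inl ω) = (f ω).re) ∧
    (∀ᵐ ω ∂m, ri f (Sum.inr ω) = (f ω).im) := by
  have h := AEEqFun.coeFn_mk (μ := dbl m) (Sum.elim (fun ω => (f ω).re) (fun ω => (f ω).im))
    ((Complex.measurable_re.comp f.measurable).sumElim
      (Complex.measurable_im.comp f.measurable)).aestronglyMeasurable
  exact ae_dbl.1 h

theorem complex_case (ι : E →ₗ[ℝ] (Ω →ₘ[m] ℂ)) (hinj : Function.Injective ι)
    (hsol : ∀ (x : E) (g : Ω →ₘ[m] ℂ), (∀ᵐ ω ∂m, ‖g ω‖ ≤ ‖ι x ω‖) → ∃ y : E, ι y = g ∧ ‖y‖ ≤ ‖x‖)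
    [CompleteSpace E] [TopologicalSpace.SeparableSpace E]
    (htr : ∀ x y : E, ‖x‖ = 1 → ‖y‖ = 1 → ∃ T : E ≃ₗᵢ[ℝ] E, T x = y) (x y : E) :
    ‖x + y‖ * ‖x + y‖ + ‖x - y‖ * ‖x - y‖ = 2 * (‖x‖ * ‖x‖ + ‖y‖ * ‖y‖) := by
  -- the real function space
  set ι' : E →ₗ[ℝ] ((Ω ⊕ Ω) →ₘ[dbl m] ℝ) :=
    { toFun := fun x => ri (ι x)
      map_add' := by
        intro x y
        refine AEEqFun.ext ?_
        refine ((ae_dbl.2 ⟨?_, ?_⟩ : ∀ᵐ ω ∂(dbl m), _))
        · filter_upwards [(ri_ae (ι (x + y))).1, (ri_ae (ι x)).1, (ri_ae (ι y)).1,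
            (ae_dbl.1 (AEEqFun.coeFn_add (ri (ι x)) (ri (ι y)))).1,
            AEEqFun.coeFn_add (ι x) (ι y)] with ω h1 h2 h3 h4 h5
          rw [h1, h4, Pi.add_apply, h2, h3, map_add, h5, Pi.add_apply, Complex.add_re]
        · filter_upwards [(ri_ae (ι (x + y))).2, (ri_ae (ι x)).2, (ri_ae (ι y)).2,
            (ae_dbl.1 (AEEqFun.coeFn_add (ri (ι x)) (ri (ι y)))).2,
            AEEqFun.coeFn_add (ι x) (ι y)] with ω h1 h2 h3 h4 h5
          rw [h1, h4, Pi.add_apply, h2, h3, map_add, h5, Pi.add_apply, Complex.add_im]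
      map_smul' := by
        intro c x
        refine AEEqFun.ext ?_
        refine ((ae_dbl.2 ⟨?_, ?_⟩ : ∀ᵐ ω ∂(dbl m), _))
        · filter_upwards [(ri_ae (ι (c • x))).1, (ri_ae (ι x)).1,
            (ae_dbl.1 (AEEqFun.coeFn_smul c (ri (ι x)))).1,
            AEEqFun.coeFn_smul c (ι x)] with ω h1 h2 h4 h5
          rw [h1, RingHom.id_apply, h4, Pi.smul_apply, h2, map_smul, h5, Pi.smul_apply,
            Complex.smul_re]
        · filter_upwards [(ri_ae (ι (c • x))).2, (ri_ae (ι x)).2,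
            (ae_dbl.1 (AEEqFun.coeFn_smul c (ri (ι x)))).2,
            AEEqFun.coeFn_smul c (ι x)] with ω h1 h2 h4 h5
          rw [h1, RingHom.id_apply, h4, Pi.smul_apply, h2, map_smul, h5, Pi.smul_apply,
            Complex.smul_im] } with hι'
  have hι'a : ∀ x, ι' x = ri (ι x) := fun x => rfl
  have hinj' : Function.Injective ι' := by
    intro x y hxy
    refine hinj (AEEqFun.ext ?_)
    rw [hι'a, hι'a] at hxy
    filter_upwards [(ri_ae (ι x)).1, (ri_ae (ι x)).2, (ri_ae (ι y)).1, (ri_ae (ι y)).2] with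
      ω h1 h2 h3 h4
    rw [hxy] at h1 h2
    exact Complex.ext (by rw [← h1, h3]) (by rw [← h2, h4])
  -- norms are monotone
  have hmono : ∀ x y : E, (∀ᵐ ω ∂m, ‖ι x ω‖ ≤ ‖ι y ω‖) → ‖x‖ ≤ ‖y‖ := by
    intro x y h
    obtain ⟨z, hz1, hz2⟩ := hsol y (ι x) h
    rw [← hinj hz1]
    exact hz2
  have hsol' : ∀ (x : E) (g : (Ω ⊕ Ω) →ₘ[dbl m] ℝ), (∀ᵐ ω ∂(dbl m), |g ω| ≤ |ι' x ω|) →
      ∃ y : E, ι' y = g ∧ ‖y‖ ≤ ‖x‖ := by
    intro x g hg
    obtain ⟨hg1, hg2⟩ := ae_dbl.1 hg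
    have hgm : Measurable (fun ω => ((g (Sum.inl ω) : ℝ) : ℂ) + ((g (Sum.inr ω) : ℝ) : ℂ) *
        Complex.I) :=
      (Complex.measurable_ofReal.comp (g.measurable.comp measurable_inl)).add
        ((Complex.measurable_ofReal.comp (g.measurable.comp measurable_inr)).mul_const _)
    set h : Ω →ₘ[m] ℂ := AEEqFun.mk _ hgm.aestronglyMeasurable with hh
    have hae : ∀ᵐ ω ∂m, h ω = ((g (Sum.inl ω) : ℝ) : ℂ) + ((g (Sum.inr ω) : ℝ) : ℂ) * Complex.I :=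
      AEEqFun.coeFn_mk _ _
    obtain ⟨y, hy1, hy2⟩ := hsol x h (by
      filter_upwards [hae, hg1, hg2, (ri_ae (ι x)).1, (ri_ae (ι x)).2] with ω h1 h2 h3 h4 h5
      rw [hι'a, h4] at h2
      rw [hι'a, h5] at h3
      rw [h1, Complex.norm_add_mul_I, ← Complex.re_add_im (ι x ω), Complex.norm_add_mul_I]
      refine Real.sqrt_le_sqrt ?_
      have e1 := sq_le_sq.2 h2
      have e2 := sq_le_sq.2 h3
      linarith)
    refine ⟨y, ?_, hy2⟩
    refine AEEqFun.ext ?_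
    refine ((ae_dbl.2 ⟨?_, ?_⟩ : ∀ᵐ ω ∂(dbl m), _))
    · filter_upwards [(ri_ae (ι y)).1, hae] with ω h1 h2
      rw [hι'a, h1, hy1, h2]
      simp
    · filter_upwards [(ri_ae (ι y)).2, hae] with ω h1 h2
      rw [hι'a, h1, hy1, h2]
      simp
  -- multiplication by the imaginary unit
  have hJ : ∀ x : E, ∃ y : E, ∀ᵐ ω ∂m, ι y ω = Complex.I * ι x ω := by
    intro x
    obtain ⟨y, hy1, -⟩ := hsol x (AEEqFun.mk (fun ω => Complex.I * ι x ω)
      ((ι x).measurable.const_mul Complex.I).aestronglyMeasurable) (by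
        filter_upwards [AEEqFun.coeFn_mk (μ := m) (fun ω => Complex.I * ι x ω)
          ((ι x).measurable.const_mul Complex.I).aestronglyMeasurable] with ω h1
        rw [h1, norm_mul, Complex.norm_I, one_mul])
    refine ⟨y, ?_⟩
    rw [hy1]
    exact AEEqFun.coeFn_mk _ _
  choose J hJ using hJ
  have hadd : ∀ x y, J (x + y) = J x + J y := by
    intro x y
    refine hinj (AEEqFun.ext ?_)
    filter_upwards [hJ (x + y), hJ x, hJ y, AEEqFun.coeFn_add (ι x) (ι y),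
      AEEqFun.coeFn_add (ι (J x)) (ι (J y))] with ω h1 h2 h3 h4 h5
    rw [h1, map_add, map_add, h4, h5, Pi.add_apply, Pi.add_apply, h2, h3, mul_add]
  have hsmul : ∀ (c : ℝ) x, J (c • x) = c • J x := by
    intro c x
    refine hinj (AEEqFun.ext ?_)
    filter_upwards [hJ (c • x), hJ x, AEEqFun.coeFn_smul c (ι x),
      AEEqFun.coeFn_smul c (ι (J x))] with ω h1 h2 h3 h4
    rw [h1, map_smul, map_smul, h3, h4, Pi.smul_apply, Pi.smul_apply, h2, mul_smul_comm]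
  have hnorm : ∀ (t : ℝ) x, ‖x + t • J x‖ ≤ Real.sqrt (1 + t ^ 2) * ‖x‖ := by
    intro t x
    have h1 : ‖x + t • J x‖ ≤ ‖Real.sqrt (1 + t ^ 2) • x‖ := by
      refine hmono _ _ ?_
      filter_upwards [hJ x, AEEqFun.coeFn_smul t (ι (J x)),
        AEEqFun.coeFn_smul (Real.sqrt (1 + t ^ 2)) (ι x),
        AEEqFun.coeFn_add (ι x) (ι (t • J x))] with ω h1 h2 h3 h4
      rw [map_add, h4, Pi.add_apply, map_smul, h2, Pi.smul_apply, h1, map_smul, h3, Pi.smul_apply,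
        norm_smul, Real.norm_of_nonneg (Real.sqrt_nonneg _)]
      have e1 : ι x ω + t • (Complex.I * ι x ω) = ((1 : ℝ) + (t : ℝ) * Complex.I) * ι x ω := by
        rw [Complex.real_smul]; push_cast; ring
      rw [e1, norm_mul, Complex.norm_add_mul_I, one_pow]
    rwa [norm_smul, Real.norm_of_nonneg (Real.sqrt_nonneg _)] at h1
  have hJn : ∀ x, ‖J x‖ = ‖x‖ := by
    intro x
    refine le_antisymm (hmono _ _ ?_) (hmono _ _ ?_)
    · filter_upwards [hJ x] with ω h1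
      rw [h1, norm_mul, Complex.norm_I, one_mul]
    · filter_upwards [hJ x] with ω h1
      rw [h1, norm_mul, Complex.norm_I, one_mul]
  set A₀ : E →L[ℝ] E := LinearMap.mkContinuous ⟨⟨J, hadd⟩, hsmul⟩ 1 (fun x => by
    rw [one_mul]; exact (hJn x).le) with hA₀
  have hA₀a : ∀ x, A₀ x = J x := fun x => rfl
  have hsk : Sk A₀ := by
    intro x f hf
    rw [hA₀a]
    -- `t f (J x) ≤ (sqrt (1 + t^2) - 1) |x| ≤ t^2 |x|`
    have h1 : ∀ t : ℝ, t * f (J x) ≤ t ^ 2 * ‖x‖ := by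
      intro t
      have h2 := hf.le (x + t • J x)
      rw [map_add, map_smul, hf.2, smul_eq_mul] at h2
      have h3 := hnorm t x
      have h4 : Real.sqrt (1 + t ^ 2) ≤ 1 + t ^ 2 := by
        rw [Real.sqrt_le_left (by positivity)]
        nlinarith [sq_nonneg t]
      have h5 := mul_le_mul_of_nonneg_right h4 (norm_nonneg x)
      linarith
    by_contra hne
    have h2 : 0 < |f (J x)| := abs_pos.2 hne
    have h3 : 0 < ‖x‖ + 1 := by positivity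
    have h4 := h1 (f (J x) / (‖x‖ + 1))
    have h5 : f (J x) / (‖x‖ + 1) * f (J x) = (f (J x)) ^ 2 / (‖x‖ + 1) := by ring
    have h6 : (f (J x) / (‖x‖ + 1)) ^ 2 * ‖x‖ = (f (J x)) ^ 2 / (‖x‖ + 1) * (‖x‖ / (‖x‖ + 1)) := by
      field_simp
    rw [h5, h6] at h4
    have h7 : 0 < (f (J x)) ^ 2 / (‖x‖ + 1) := by positivity
    have h8 : ‖x‖ / (‖x‖ + 1) < 1 := by rw [div_lt_one h3]; linarith
    nlinarith
  by_cases h0 : A₀ = 0
  · have h1 : ∀ z : E, ‖z‖ = 0 := by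
      intro z
      rw [← hJn z, ← hA₀a, h0, zero_apply, norm_zero]
    rw [h1, h1, h1, h1]
    ring
  · exact real_case ι' hinj' hsol' htr hsk h0 x y

end two

end Pool.Q193.BF
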